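import Pool.Agent.Helper94_PP.Bridge
import Pool.Agent.Helper20_PP.Ibr

/-!
SI1, tools: representations of subgroups evaluated at functions on the ambient group.
-/

open scoped BigOperators

set_option linter.unusedSectionVars false

noncomputable section

namespace Pool.Agent.PP.H67

open Pool.Agent.PP

variable {F G : Type} [Field F] [Group G] [Finite G]

/-- the value of a representation of a subgroup at a function on the group -/
def ex {X : Subgroup G} {n : ℕ} (σ : X →* Matrix (Fin n) (Fin n) F) (a : G → F) :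
    Matrix (Fin n) (Fin n) F := ev σ (fun x : X => a x)

/-- support in a subgroup -/
def Sp (X : Subgroup G) (a : G → F) : Prop := ∀ g, g ∉ X → a g = 0

/-- `g a g⁻¹` -/
def cja (g : G) (a : G → F) : G → F := fun x => a (g⁻¹ * x * g)

section basics

variable {X Y : Subgroup G} {n : ℕ} (σ : X →* Matrix (Fin n) (Fin n) F)

theorem ex_eq [Fintype X] (a : G → F) : ex σ a = ∑ x : X, a x • σ x :=
  finsum_eq_sum_of_fintype _

theorem ex_add (a b : G → F) : ex σ (a + b) = ex σ a + ex σ b := by
  have := Fintype.ofFinite X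
  rw [ex_eq, ex_eq, ex_eq, ← Finset.sum_add_distrib]
  exact Finset.sum_congr rfl fun x _ => by rw [Pi.add_apply, add_smul]

theorem ex_sub (a b : G → F) : ex σ (a - b) = ex σ a - ex σ b := by
  have := Fintype.ofFinite X
  rw [ex_eq, ex_eq, ex_eq, ← Finset.sum_sub_distrib]
  exact Finset.sum_congr rfl fun x _ => by rw [Pi.sub_apply, sub_smul]

theorem ex_smul (c : F) (a : G → F) : ex σ (c • a) = c • ex σ a := by
  have := Fintype.ofFinite X
  rw [ex_eq, ex_eq, Finset.smul_sum]
  exact Finset.sum_congr rfl fun x _ => by rw [Pi.smul_apply, smul_eq_mul, mul_smul]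

theorem ex_zero : ex σ (0 : G → F) = 0 := by
  have := Fintype.ofFinite X
  rw [ex_eq]
  exact Finset.sum_eq_zero fun x _ => by rw [Pi.zero_apply, zero_smul]

theorem ex_sum {ι : Type*} (s : Finset ι) (a : ι → G → F) :
    ex σ (∑ i ∈ s, a i) = ∑ i ∈ s, ex σ (a i) := by
  classical
  induction s using Finset.induction_on with
  | empty => rw [Finset.sum_empty, Finset.sum_empty, ex_zero]
  | insert i s hi ih => rw [Finset.sum_insert hi, Finset.sum_insert hi, ex_add, ih]

theorem ex_congr {a b : G → F} (h : ∀ x ∈ X, a x = b x) : ex σ a = ex σ b := by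
  rw [ex, ex]
  congr 1
  funext x
  exact h x x.2

theorem ex_ext0 (a : X → F) : ex σ (fun g => open Classical in if h : g ∈ X then a ⟨g, h⟩ else 0) =
    ev σ a := by
  rw [ex]
  congr 1
  funext x
  rw [dif_pos x.2]

theorem sum_sub {V : Type*} [AddCommMonoid V] [Fintype G] [Fintype X] (f : G → V)
    (h : ∀ g, g ∉ X → f g = 0) : ∑ g, f g = ∑ x : X, f x := by
  symm
  apply Fintype.sum_of_injective (fun x : X => (x : G)) Subtype.val_injective
  · intro g hg
    apply h
    intro hX
    exact hg ⟨⟨g, hX⟩, rfl⟩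
  · intro x; rfl

theorem mulF_sub_right {a b : G → F} (hb : Sp X b) (x : X) :
    mulF a b x = mulF (fun t : X => a t) (fun t : X => b t) x := by
  have := Fintype.ofFinite G
  have := Fintype.ofFinite X
  rw [mulF, mulF, finsum_eq_sum_of_fintype, finsum_eq_sum_of_fintype, sum_sub (X := X)]
  · rfl
  · intro g hg
    rw [hb, mul_zero]
    intro h
    apply hg
    have := X.mul_mem x.2 (X.inv_mem h)
    rw [mul_inv_rev, inv_inv, mul_inv_cancel_left] at this
    exact this

theorem mulF_sub_left {a b : G → F} (ha : Sp X a) (x : X) :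
    mulF a b x = mulF (fun t : X => a t) (fun t : X => b t) x := by
  have := Fintype.ofFinite G
  have := Fintype.ofFinite X
  rw [mulF, mulF, finsum_eq_sum_of_fintype, finsum_eq_sum_of_fintype, sum_sub (X := X)]
  · rfl
  · intro g hg
    rw [ha g hg, zero_mul]

theorem ex_mulF_right {a b : G → F} (hb : Sp X b) : ex σ (mulF a b) = ex σ a * ex σ b := by
  rw [ex, ex, ex, ← H20.ev_mulF]
  congr 1
  funext x
  exact mulF_sub_right hb x

theorem ex_mulF_left {a b : G → F} (ha : Sp X a) : ex σ (mulF a b) = ex σ a * ex σ b := by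
  rw [ex, ex, ex, ← H20.ev_mulF]
  congr 1
  funext x
  exact mulF_sub_left ha x

theorem sp_mulF {a b : G → F} (ha : Sp X a) (hb : Sp X b) : Sp X (mulF a b) := by
  have := Fintype.ofFinite G
  intro g hg
  rw [mulF, finsum_eq_sum_of_fintype]
  apply Finset.sum_eq_zero
  intro t _
  by_cases ht : t ∈ X
  · rw [hb, mul_zero]
    intro h
    apply hg
    have := X.mul_mem ht h
    rwa [mul_inv_cancel_left] at this
  · rw [ha t ht, zero_mul]

theorem sp_iterate {a b : G → F} (ha : Sp X a) (hb : Sp X b) (k : ℕ) :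
    Sp X ((mulF a)^[k] b) := by
  induction k with
  | zero => exact hb
  | succ k ih => rw [Function.iterate_succ_apply']; exact sp_mulF ha ih

theorem iterate_sub {a b : G → F} (ha : Sp X a) (k : ℕ) (x : X) :
    (mulF a)^[k] b x = (mulF (fun t : X => a t))^[k] (fun t : X => b t) x := by
  induction k generalizing x with
  | zero => rfl
  | succ k ih =>
    rw [Function.iterate_succ_apply', Function.iterate_succ_apply', mulF_sub_left ha]
    congr 1
    funext t
    exact ih t

theorem ex_iterate {a b : G → F} (ha : Sp X a) (k : ℕ) :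
    ex σ ((mulF a)^[k] b) = ex σ a ^ k * ex σ b := by
  induction k with
  | zero => rw [Function.iterate_zero, id, pow_zero, one_mul]
  | succ k ih =>
    rw [Function.iterate_succ_apply', ex_mulF_left σ ha, ih, ← mul_assoc, pow_succ']

theorem Sp.mono (h : Y ≤ X) {a : G → F} (ha : Sp Y a) : Sp X a := fun g hg => ha g fun h' => hg (h h')

theorem ex_sub_group (h : Y ≤ X) {a : G → F} (ha : Sp Y a) :
    ex (σ.comp (Subgroup.inclusion h)) a = ex σ a := by
  have := Fintype.ofFinite X
  have := Fintype.ofFinite Y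
  rw [ex_eq, ex_eq]
  apply Fintype.sum_of_injective (fun x : Y => (⟨x, h x.2⟩ : X))
  · intro x y hxy
    exact Subtype.ext (congrArg (fun z : X => (z : G)) hxy)
  · intro x hx
    rw [ha x, zero_smul]
    intro hY
    exact hx ⟨⟨x, hY⟩, rfl⟩
  · intro x; rfl

theorem ex_cja (g : X) (a : G → F) : ex σ (cja g a) = σ g * ex σ a * σ g⁻¹ := by
  have := Fintype.ofFinite X
  rw [ex_eq, ex_eq, Finset.mul_sum, Finset.sum_mul,
    ← Equiv.sum_comp (MulAut.conj g).toEquiv]
  apply Finset.sum_congr rfl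
  intro x _
  show a ((g : G)⁻¹ * ((g : G) * x * (g : G)⁻¹) * g) • σ (g * x * g⁻¹) = _
  rw [Matrix.mul_smul, Matrix.smul_mul, ← map_mul, ← map_mul]
  congr 2
  group

theorem ex_comm (g : X) (a : G → F) : ex σ (cja g a) * σ g = σ g * ex σ a := by
  rw [ex_cja, mul_assoc, ← map_mul, inv_mul_cancel, map_one, mul_one]

theorem cja_sp (hX : X.Normal) (g : G) {a : G → F} (ha : Sp X a) : Sp X (cja g a) := by
  intro x hx
  apply ha
  intro h
  apply hx
  have := hX.conj_mem _ h g
  have e : g * (g⁻¹ * x * g) * g⁻¹ = x := by group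
  rwa [e] at this

theorem cja_cja (g h : G) (a : G → F) : cja g (cja h a) = cja (g * h) a := by
  funext x
  rw [cja, cja, cja]
  congr 1
  group

theorem cja_one (a : G → F) : cja 1 a = a := by
  funext x
  rw [cja]
  congr 1
  group

/-- conjugate of a representation of a normal subgroup -/
def crep (hX : X.Normal) (g : G) : X →* X where
  toFun x := ⟨g * x * g⁻¹, hX.conj_mem x x.2 g⟩
  map_one' := Subtype.ext (by simp)
  map_mul' x y := Subtype.ext (by simp)

theorem crep_surj (hX : X.Normal) (g : G) : Function.Surjective (crep hX g) := by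
  intro x
  refine ⟨⟨g⁻¹ * x * g, ?_⟩, ?_⟩
  · have := hX.conj_mem x x.2 g⁻¹
    rwa [inv_inv] at this
  · apply Subtype.ext
    show g * (g⁻¹ * x * g) * g⁻¹ = x
    group

theorem irr_comp {H K : Type} [Group H] [Group K] {m : ℕ} {ρ : K →* Matrix (Fin m) (Fin m) F}
    (hρ : IsIrr ρ) (f : H →* K) (hf : Function.Surjective f) : IsIrr (ρ.comp f) := by
  refine ⟨hρ.1, ?_⟩
  rw [← hρ.2]
  congr 1
  ext M
  constructor
  · rintro ⟨x, rfl⟩; exact ⟨f x, rfl⟩
  · rintro ⟨x, rfl⟩
    obtain ⟨y, rfl⟩ := hf x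
    exact ⟨y, rfl⟩

theorem irr_of_comp {H K : Type} [Group H] [Group K] {m : ℕ} {ρ : K →* Matrix (Fin m) (Fin m) F}
    (f : H →* K) (hρ : IsIrr (ρ.comp f)) : IsIrr ρ := by
  refine ⟨hρ.1, ?_⟩
  rw [eq_top_iff, ← hρ.2]
  apply Submodule.span_mono
  rintro _ ⟨x, rfl⟩
  exact ⟨f x, rfl⟩

theorem ex_crep (hX : X.Normal) (g : G) (a : G → F) :
    ex (σ.comp (crep hX g)) a = ex σ (cja g a) := by
  have := Fintype.ofFinite X
  rw [ex_eq, ex_eq]
  apply Fintype.sum_bijective (crep hX g)
  · constructor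
    · intro x y hxy
      have := congrArg (fun z : X => (z : G)) hxy
      apply Subtype.ext
      have h : g * (x : G) * g⁻¹ = g * (y : G) * g⁻¹ := this
      exact mul_left_cancel (mul_right_cancel h)
    · exact crep_surj hX g
  · intro x
    rw [cja]
    show a x • σ (crep hX g x) = a (g⁻¹ * (g * x * g⁻¹) * g) • σ (crep hX g x)
    congr 2
    group

end basics

section conj

variable {X : Subgroup G} {n : ℕ} {σ : X →* Matrix (Fin n) (Fin n) F}

/-- conjugate representations have conjugate values -/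
theorem ev_conj {H : Type} [Group H] [Finite H] {n m : ℕ} {ρ : H →* Matrix (Fin n) (Fin n) F}
    {τ : H →* Matrix (Fin m) (Fin m) F} {A : Matrix (Fin m) (Fin n) F}
    (h : ∀ x, A * ρ x = τ x * A) (a : H → F) : A * ev ρ a = ev τ a * A := by
  have := Fintype.ofFinite H
  rw [ev, ev, finsum_eq_sum_of_fintype, finsum_eq_sum_of_fintype, Matrix.mul_sum, Matrix.sum_mul]
  apply Finset.sum_congr rfl
  intro x _
  rw [Matrix.mul_smul, Matrix.smul_mul, h]

/-- equal traces: the kernels agree and so do scalar values -/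
theorem ev_eq_of_tr {ℓ : ℕ} (hF : GoodF ℓ F) {H : Type} [Group H] [Finite H] {n m : ℕ}
    {ρ : H →* Matrix (Fin n) (Fin n) F} {τ : H →* Matrix (Fin m) (Fin m) F} (hρ : IsIrr ρ)
    (hτ : IsIrr τ) (h : tr ρ = tr τ) (a : H → F) (w : F) (ha : ev ρ a = Matrix.scalar (Fin n) w) :
    ev τ a = Matrix.scalar (Fin m) w := by
  obtain ⟨A, B, -, h1, h2, h3⟩ := H20.ibc ℓ F hF H n m ρ τ hρ hτ h
  have h4 := ev_conj h3 a
  rw [ha] at h4
  calc ev τ a = ev τ a * (A * B) := by rw [h1, mul_one]
    _ = (ev τ a * A) * B := by rw [Matrix.mul_assoc]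
    _ = (A * Matrix.scalar (Fin n) w) * B := by rw [h4]
    _ = Matrix.scalar (Fin m) w := by
      rw [Matrix.scalar_apply, ← Matrix.smul_one_eq_diagonal, Matrix.mul_smul, Matrix.mul_one,
        Matrix.smul_mul, h1, Matrix.scalar_apply, Matrix.smul_one_eq_diagonal]

/-- nilpotency passes to conjugate representations -/
theorem nil_of_tr {ℓ : ℕ} (hF : GoodF ℓ F) {H : Type} [Group H] [Finite H] {n m : ℕ}
    {ρ : H →* Matrix (Fin n) (Fin n) F} {τ : H →* Matrix (Fin m) (Fin m) F} (hρ : IsIrr ρ)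
    (hτ : IsIrr τ) (h : tr ρ = tr τ) (a : H → F) (ha : IsNilpotent (ev ρ a)) :
    IsNilpotent (ev τ a) := by
  obtain ⟨A, B, -, h1, h2, h3⟩ := H20.ibc ℓ F hF H n m ρ τ hρ hτ h
  have h4 := ev_conj h3 a
  obtain ⟨k, hk⟩ := ha
  have h5 : ∀ j : ℕ, A * ev ρ a ^ j = ev τ a ^ j * A := by
    intro j
    induction j with
    | zero => rw [pow_zero, pow_zero, Matrix.mul_one, Matrix.one_mul]
    | succ j ih => rw [pow_succ, pow_succ, ← Matrix.mul_assoc, ih, Matrix.mul_assoc, h4,
        Matrix.mul_assoc]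
  refine ⟨k, ?_⟩
  have h6 := h5 k
  rw [hk, Matrix.mul_zero] at h6
  calc ev τ a ^ k = ev τ a ^ k * (A * B) := by rw [h1, mul_one]
    _ = (ev τ a ^ k * A) * B := by rw [Matrix.mul_assoc]
    _ = 0 := by rw [← h6, Matrix.zero_mul]

end conj

end Pool.Agent.PP.H67
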