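import Pool.Agent.Helper46_PP.StmtsTop
import Pool.Agent.Helper67_PP.Ex

/-!
# SI1 (the case of a simple chief factor): statements of the parts

Text: `AWC_A.md`, A5, with the cover `E` of helper18.

`C = C_G(N)`, `ρ` an irreducible representation of `C` with trace `θ`, `L = stC θ` its stabiliser,
`p : E → G` with image `L` and central kernel of order prime to `ℓ`, `α` a representation of `E`,
`K = {x : p x ∈ C, α x = ρ (p x)}`, which is mapped bijectively onto `C`, `D = E / K`.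
-/

open scoped BigOperators

set_option linter.unusedSectionVars false

noncomputable section

namespace Pool.Agent.PP.H67

open Pool.Agent.Helper51_AWC Pool.Agent.Helper79_WRA Pool.Agent.PP

section defs

variable {F G : Type} [Field F] [Group G]

/-- the stabiliser of a function on the normal subgroup `C` -/
def stC {C : Subgroup G} (hC : C.Normal) (θ : C → F) : Subgroup G where
  carrier := {g | ∀ c : C, θ ⟨g * c * g⁻¹, hC.conj_mem c c.2 g⟩ = θ c}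
  one_mem' := by
    intro c
    congr 1
    exact Subtype.ext (by simp)
  mul_mem' := by
    intro g h hg hh c
    have e : (⟨g * h * c * (g * h)⁻¹, hC.conj_mem c c.2 (g * h)⟩ : C) =
        ⟨g * (⟨h * c * h⁻¹, hC.conj_mem c c.2 h⟩ : C) * g⁻¹, hC.conj_mem _ (hC.conj_mem c c.2 h) g⟩ :=
      Subtype.ext (by simp only [mul_inv_rev, mul_assoc])
    rw [e, hg, hh]
  inv_mem' := by
    intro g hg c
    have := hg ⟨g⁻¹ * c * g⁻¹⁻¹, hC.conj_mem c c.2 g⁻¹⟩
    rw [← this]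
    congr 1
    apply Subtype.ext
    show g * (g⁻¹ * c * g⁻¹⁻¹) * g⁻¹ = c
    group

/-- the representation `τ` of `X` lies over the representation `ρ` of `C ≤ X` (is a multiple of `ρ`
on `C`) -/
def Ov {C X : Subgroup G} {n m : ℕ} (ρ : C →* Matrix (Fin n) (Fin n) F)
    (τ : X →* Matrix (Fin m) (Fin m) F) : Prop :=
  ∀ a : G → F, Sp C a → ex ρ a = 0 → ex τ a = 0

/-- the irreducible characters of `X` which are multiples of `θ` on `C` and on which `e` acts as the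
identity -/
def LT {C : Subgroup G} (X : Subgroup G) (θ : C → F) (e : G → F) : Set (X → F) :=
  {f | (∃ (n m : ℕ) (ρ : C →* Matrix (Fin n) (Fin n) F) (τ : X →* Matrix (Fin m) (Fin m) F),
    IsIrr ρ ∧ IsIrr τ ∧ tr ρ = θ ∧ tr τ = f ∧ Ov ρ τ) ∧ actF (fun t : X => e t) f = f}

/-- the cover -/
structure Cover (ℓ : ℕ) {E : Type} [Group E] {n : ℕ} (C L : Subgroup G)
    (ρ : C →* Matrix (Fin n) (Fin n) F) (p : E →* G) (α : E →* Matrix (Fin n) (Fin n) F)
    (K : Subgroup E) : Prop where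
  irr : IsIrr ρ
  le : C ≤ L
  range : p.range = L
  central : ∀ x, p x = 1 → x ∈ Subgroup.center E
  prime : ¬ ℓ ∣ Nat.card p.ker
  faithful : ∀ x, p x = 1 → α x = 1 → x = 1
  scalar : ∀ x, p x = 1 → ∃ z : F, α x = Matrix.scalar (Fin n) z
  impl : ∀ (x : E) (c c' : C), (c' : G) = p x * c * (p x)⁻¹ → α x * ρ c = ρ c' * α x
  lift : ∀ c : C, ∃ x, p x = c ∧ α x = ρ c
  mem : ∀ x, x ∈ K ↔ ∃ c : C, p x = c ∧ α x = ρ c

end defs

/-- CVR: existence of the cover. -/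
def CvrStmt : Prop := ∀ (ℓ : ℕ) (F : Type) [Field F], GoodF ℓ F → ∀ (G : Type) [Group G] [Finite G]
  (C : Subgroup G) (hC : C.Normal) (n : ℕ) (ρ : C →* Matrix (Fin n) (Fin n) F), IsIrr ρ →
  ∃ (E : Type) (_ : Group E) (_ : Finite E) (p : E →* G) (α : E →* Matrix (Fin n) (Fin n) F)
    (K : Subgroup E), K.Normal ∧ Cover ℓ C (stC hC (tr ρ)) ρ p α K

open Classical in
/-- CLS: the Clifford correspondence, as a formula for the `ℓ`-numbers. -/
def ClsStmt : Prop := ∀ (ℓ : ℕ) (F : Type) [Field F], GoodF ℓ F → ∀ (G : Type) [Group G] [Finite G]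
  (C : Subgroup G) (hC : C.Normal) (X : Subgroup G), C ≤ X → ∀ e : G → F, IsCl e →
  (Nat.card X : ℤ) * (lnum X e : ℤ) = ∑ᶠ θ ∈ IBr F C,
    (Nat.card (X ⊓ stC hC θ : Subgroup G) : ℤ) * ((LT (X ⊓ stC hC θ) θ e).ncard : ℤ)

/-- CLR: an irreducible representation `τ` of the stabiliser of `θ` lying over `θ` is a corner of
an irreducible representation `σ` of the group. -/
def ClrStmt : Prop := ∀ (ℓ : ℕ) (F : Type) [Field F], GoodF ℓ F → ∀ (G : Type) [Group G] [Finite G]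
  (C : Subgroup G) (hC : C.Normal) (n m : ℕ) (ρ : C →* Matrix (Fin n) (Fin n) F)
  (τ : stC hC (tr ρ) →* Matrix (Fin m) (Fin m) F), IsIrr ρ → IsIrr τ → Ov ρ τ →
  ∃ (k : ℕ) (σ : G →* Matrix (Fin k) (Fin k) F) (P : Matrix (Fin m) (Fin k) F)
    (Q : Matrix (Fin k) (Fin m) F), IsIrr σ ∧ P * Q = 1 ∧ (∀ g : stC hC (tr ρ), P * σ g * Q = τ g) ∧
    (∀ g : stC hC (tr ρ), Q * P * σ g = σ g * (Q * P)) ∧
    ∀ (e : G → F) (w : F), IsCl e → ev σ e = Matrix.scalar (Fin k) w →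
      ex τ e = Matrix.scalar (Fin m) w

/-- LMA: the `ℓ`-numbers over `θ` are the `ℓ`-numbers of the class function `s` of `D = E / K`. -/
def LmaStmt : Prop := ∀ (ℓ : ℕ) (F : Type) [Field F], GoodF ℓ F → ∀ (G E : Type) [Group G]
  [Finite G] [Group E] [Finite E] (C : Subgroup G) (hC : C.Normal) (n : ℕ)
  (ρ : C →* Matrix (Fin n) (Fin n) F) (p : E →* G) (α : E →* Matrix (Fin n) (Fin n) F)
  (K : Subgroup E) [K.Normal], Cover ℓ C (stC hC (tr ρ)) ρ p α K → ∀ e : G → F, IsIdem e →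
  ∃ s : E ⧸ K → F, IsCl s ∧
    (∀ x : E, ∑ᶠ k : K, ((Nat.card p.ker : F)⁻¹ * e (p (x * k))) • α (x * k) =
      Matrix.scalar (Fin n) (s x)) ∧
    (∀ X : Subgroup G, C ≤ X → (LT (X ⊓ stC hC (tr ρ)) (tr ρ) e).ncard =
      lnum ((X.comap p).map (QuotientGroup.mk' K)) s) ∧
    -- the irreducible representations `κ` of `D` on which `s` does not act as zero:
    -- `α ⊗ κ` is a representation of the stabiliser
    ∀ (m : ℕ) (κ : E ⧸ K →* Matrix (Fin m) (Fin m) F) (w : F), IsIrr κ →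
      ev κ s = Matrix.scalar (Fin m) w → w ≠ 0 →
      ∃ σ : stC hC (tr ρ) →* Matrix (Fin (n * m)) (Fin (n * m)) F, IsIrr σ ∧ Ov ρ σ ∧
        (∀ (x : E) (hx : p x ∈ stC hC (tr ρ)), σ ⟨p x, hx⟩ = kr (α x) (κ x)) ∧
        ex σ e = Matrix.scalar (Fin (n * m)) w

/-- CHF: chains under a homomorphism whose kernel centralises `M` and meets it in an `ℓ'`-group. -/
def ChfStmt : Prop := ∀ (ℓ : ℕ) [Fact ℓ.Prime] (E G : Type) [Group E] [Finite E] [Group G]
  [Finite G] (f : E →* G) (M : Subgroup E), M.Normal → (∀ k, f k = 1 → ∀ m ∈ M, k * m = m * k) →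
  ¬ ℓ ∣ Nat.card (f.ker ⊓ M : Subgroup E) → ∀ w : Subgroup E → ℤ,
  ∑ d ∈ chainsOn (psubIn ℓ M) ⊥, (-1) ^ (d.card + 1) * w (stab d) =
    ∑ d ∈ chainsOn (psubIn ℓ (M.map f)) ⊥, (-1) ^ (d.card + 1) * w ((stab d).comap f)

/-- POW: a class function which acts as zero or one in the irreducible representations may be
replaced by an idempotent. -/
def PowStmt : Prop := ∀ (ℓ : ℕ) (F : Type) [Field F], GoodF ℓ F → ∀ (D : Type) [Group D] [Finite D]
  (s : D → F), IsCl s → (∀ (m : ℕ) (κ : D →* Matrix (Fin m) (Fin m) F) (w : F), IsIrr κ →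
    ev κ s = Matrix.scalar (Fin m) w → w = 0 ∨ w = 1) →
  ∃ f : D → F, IsIdem f ∧ (∀ (m : ℕ) (κ : D →* Matrix (Fin m) (Fin m) F), IsIrr κ →
    ev κ f = ev κ s) ∧ (∀ Q : Subgroup D, Q.Normal → YY ℓ Q f = YY ℓ Q s) ∧
    ∀ (z : D) (c : F), (∀ x, s (z * x) = c * s x) → ∀ x, f (z * x) = c * f x

/-- PSE: positivity of the idempotent of `D`. -/
def PseStmt : Prop := ∀ (ℓ : ℕ) (F : Type) [Field F], GoodF ℓ F → ∀ (G E : Type) [Group G]
  [Finite G] [Group E] [Finite E] (C L : Subgroup G) (n : ℕ)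
  (ρ : C →* Matrix (Fin n) (Fin n) F) (p : E →* G) (α : E →* Matrix (Fin n) (Fin n) F)
  (K : Subgroup E) [K.Normal], C.Normal → Cover ℓ C L ρ p α K →
  ∀ N : Subgroup G, N.Normal → N ≤ L → (∀ x ∈ N, ∀ c ∈ C, x * c = c * x) →
  ¬ ℓ ∣ Nat.card (C ⊓ N : Subgroup G) → ∀ e : G → F, IsIdem e → Pos ℓ e N → ∀ f : E ⧸ K → F, IsIdem f →
  (∀ (m : ℕ) (κ : E ⧸ K →* Matrix (Fin m) (Fin m) F), IsIrr κ → ev κ f ≠ 0 →
    ∃ (k : ℕ) (σ : G →* Matrix (Fin k) (Fin k) F) (P : Matrix (Fin (n * m)) (Fin k) F)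
      (Q : Matrix (Fin k) (Fin (n * m)) F), IsIrr σ ∧ ev σ e = 1 ∧ P * Q = 1 ∧
      ∀ x : E, Q * P * σ (p x) = σ (p x) * (Q * P) ∧ P * σ (p x) * Q = kr (α x) (κ x)) →
  Pos ℓ f ((N.comap p).map (QuotientGroup.mk' K))

/-- STR: the structure of `D = E / K`. -/
def StrStmt : Prop := ∀ (ℓ : ℕ) [Fact ℓ.Prime] (G E : Type) [Group G] [Finite G] [Group E]
  [Finite E] (N : Subgroup G), N.Normal → opCore ℓ N = ⊥ →
  NASimple (N ⧸ (Subgroup.center G).subgroupOf N) → NilOut N → ∀ (p : E →* G) (K : Subgroup E)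
  [K.Normal], N ≤ p.range → Subgroup.centralizer (N : Set G) ≤ p.range →
  (∀ x, p x = 1 → x ∈ Subgroup.center E) → ¬ ℓ ∣ Nat.card p.ker →
  K.map p = Subgroup.centralizer (N : Set G) → K ⊓ p.ker = ⊥ →
  -- for the chains
  (∀ k ∈ K, ∀ m ∈ N.comap p, k * m = m * k) ∧ ¬ ℓ ∣ Nat.card (K ⊓ N.comap p : Subgroup E) ∧
  -- for the hypothesis on nearly simple groups
  opCore ℓ (E ⧸ K) = ⊥ ∧
  NearlySimple (E ⧸ K) (N ⧸ (Subgroup.center G).subgroupOf N) ∧
  Subgroup.center (E ⧸ K) = p.ker.map (QuotientGroup.mk' K) ∧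
  -- for the induction
  ((N.comap p).map (QuotientGroup.mk' K)).Normal ∧
  Subgroup.centralizer (((N.comap p).map (QuotientGroup.mk' K) : Subgroup (E ⧸ K)) : Set (E ⧸ K)) =
    Subgroup.center (E ⧸ K) ∧
  ¬ ℓ ∣ Nat.card (Subgroup.center (E ⧸ K)) ∧
  Subgroup.center (E ⧸ K) ≤ (N.comap p).map (QuotientGroup.mk' K) ∧
  mu ((N.comap p).map (QuotientGroup.mk' K)) = mu N

/-- FNL: the end of the proof of S1, in the group `D`. -/
def FnlStmt : Prop := ∀ (ℓ : ℕ) [Fact ℓ.Prime] (F : Type) [Field F], GoodF ℓ F →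
  ∀ (D : Type) [Group D] [Finite D] (M : Subgroup D), M.Normal →
  Subgroup.centralizer (M : Set D) = Subgroup.center D → ¬ ℓ ∣ Nat.card (Subgroup.center D) →
  Subgroup.center D ≤ M → GoodP ℓ F M → Ylt ℓ F (mu M) →
  ∀ f : D → F, IsIdem f → Pos ℓ f M → (Pos ℓ f ⊤ → YY ℓ ⊤ f = 0) → YY ℓ M f = 0

end Pool.Agent.PP.H67
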