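import Pool.Agent.Helper66_PP.StmtsLQ
import Pool.Agent.Helper97_PP.Kri
import Pool.Agent.Helper79_WRA.Basic

/-!
# Squad PP, module RKR: the relative theorem of Knörr and Robinson
-/

open scoped BigOperators

noncomputable section

namespace Pool.Agent.PP.H67

open Pool.Agent.Helper51_AWC Pool.Agent.Helper79_WRA Pool.Agent.PP

open Classical in
theorem smo_sub (hS : SmoStmt) {ℓ : ℕ} {F : Type} [Field F] (hF : GoodF ℓ F) {G : Type} [Group G]
    [Fintype G] (X L : Subgroup G) (hL : L.Normal) (hi : ∃ n : ℕ, L.index = ℓ ^ n) (a : G → F)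
    (ha : IsIdem (fun t : X => a t)) :
    Nat.card X * rk (fun t : X => a t) (cfsO F (L.subgroupOf X)) =
      ∑ u ∈ Finset.univ.filter (fun u : G => (∃ n : ℕ, u ^ ℓ ^ n = 1) ∧ u ∉ L),
        if u ∈ X then Nat.card (Subgroup.centralizer ({u} : Set G) ⊓ X : Subgroup G) *
          lnum (Subgroup.centralizer ({u} : Set G) ⊓ X) a else 0 := by
  have := Fintype.ofFinite X
  have hi' : ∃ n : ℕ, (L.subgroupOf X).index = ℓ ^ n := by
    obtain ⟨n, hn⟩ := hi
    have h1 : L.relIndex X ∣ L.index := Subgroup.relIndex_dvd_index_of_normal L X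
    rw [hn] at h1
    obtain ⟨m, -, hm⟩ := (Nat.dvd_prime_pow hF.prime).1 h1
    exact ⟨m, hm⟩
  rw [hS ℓ F hF X (L.subgroupOf X) (hL.subgroupOf X) hi' _ ha, ← Finset.sum_filter]
  apply Finset.sum_bij (fun (u : X) _ => (u : G))
  · intro u hu
    rw [Finset.mem_filter] at hu
    rw [Finset.mem_filter, Finset.mem_filter]
    obtain ⟨⟨n, hn⟩, hu2⟩ := hu.2
    refine ⟨⟨Finset.mem_univ _, ⟨n, by rw [← Subgroup.coe_pow, hn, Subgroup.coe_one]⟩, ?_⟩, u.2⟩
    intro h
    exact hu2 (Subgroup.mem_subgroupOf.2 h)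
  · intro u _ v _ h
    exact Subtype.ext h
  · intro u hu
    rw [Finset.mem_filter, Finset.mem_filter] at hu
    obtain ⟨⟨_, ⟨n, hn⟩, hu2⟩, hu⟩ := hu
    exact ⟨⟨u, hu⟩, Finset.mem_filter.2 ⟨Finset.mem_univ _, ⟨n, Subtype.ext hn⟩,
      fun h => hu2 (Subgroup.mem_subgroupOf.1 h)⟩, rfl⟩
  · intro u _
    rw [H97.card_map, H97.lnum_map, H97.centralizer_map]

theorem chainsOn_top {ℓ : ℕ} {G : Type} [Group G] [Finite G] {Y : Subgroup G}
    {d : Finset (Subgroup G)} (hd : d ∈ chainsOn (psubIn ℓ Y) ⊥) :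
    d ∈ chainsOn (psubIn ℓ (⊤ : Subgroup G)) ⊥ := by
  rw [mem_chainsOn] at hd ⊢
  refine ⟨fun D hD => ?_, hd.2⟩
  exact mem_psubIn.2 ⟨le_top, (mem_psubIn.1 (hd.1 hD)).2⟩

section

variable {ℓ : ℕ} {F : Type} [Field F] {X : Type} [Group X] [Finite X]

omit [Finite X] in
theorem br_sup_inf {t u : X} (htu : t ∈ Subgroup.centralizer ({u} : Set X)) (Y R : Subgroup X)
    (a : X → F) : br ((Subgroup.zpowers u ⊓ Y) ⊔ R) a t = br R a t := by
  classical
  have : t ∈ Subgroup.centralizer (((Subgroup.zpowers u ⊓ Y) ⊔ R : Subgroup X) : Set X) ↔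
      t ∈ Subgroup.centralizer (R : Set X) := by
    rw [H97.mem_cent_iff, H97.mem_cent_iff, sup_le_iff]
    refine ⟨fun h => h.2, fun h => ⟨?_, h⟩⟩
    refine inf_le_left.trans ?_
    rw [Subgroup.zpowers_le, Subgroup.mem_centralizer_singleton_iff]
    exact (Subgroup.mem_centralizer_singleton_iff.1 htu).symm
  unfold br
  by_cases h : t ∈ Subgroup.centralizer (R : Set X)
  · rw [if_pos h, if_pos (this.2 h)]
  · rw [if_neg h, if_neg (fun h' => h (this.1 h'))]

/-- a central idempotent restricted to the centraliser of an `ℓ`-element -/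
theorem idem_cent (hB : BrmStmt) (hF : GoodF ℓ F) {e : X → F} (he : IsIdem e) {u : X}
    (hu : ∃ n : ℕ, u ^ ℓ ^ n = 1) :
    IsIdem (fun t : Subgroup.centralizer ({u} : Set X) => e t) := by
  classical
  have h1 : Subgroup.centralizer ((Subgroup.zpowers u : Subgroup X) : Set X) ≤
      Subgroup.centralizer ({u} : Set X) :=
    Subgroup.centralizer_le (Set.singleton_subset_iff.2 (Subgroup.mem_zpowers u))
  have h2 := (hB ℓ F hF X (Subgroup.zpowers u) (Subgroup.centralizer ({u} : Set X))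
    (H97.isPGroup_zp hu) h1 (fun g hg => H97.cent_le_norm hg)).2.2 e he
  have h3 : (fun t : Subgroup.centralizer ({u} : Set X) => br (Subgroup.zpowers u) e t) =
      fun t : Subgroup.centralizer ({u} : Set X) => e t := by
    funext t
    unfold br
    rw [if_pos]
    rw [H97.mem_cent_iff, Subgroup.zpowers_le, Subgroup.mem_centralizer_singleton_iff]
    exact (Subgroup.mem_centralizer_singleton_iff.1 t.2).symm
  rw [h3] at h2
  exact h2

open Classical in
/-- the sum of one element -/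
theorem gu_zero (hB : BrmStmt) (hCan : CanStmt) (hFxu : FxuStmt) (hCux : CuxStmt)
    (hGue : GueStmt) (hF : GoodF ℓ F) (Y : Subgroup X) (hY : Y.Normal) {e : X → F}
    (he : IsIdem e) (hyp : ∀ u : X, u ≠ 1 → (∃ n : ℕ, u ^ ℓ ^ n = 1) →
      Subgroup.zpowers u ⊓ Y = ⊥ →
      YY ℓ ((Subgroup.centralizer ({u} : Set X) ⊓ Y).subgroupOf
        (Subgroup.centralizer ({u} : Set X)))
        (fun t : Subgroup.centralizer ({u} : Set X) => e t) = 0) (u : X) (hu1 : u ≠ 1)
    (hu : ∃ n : ℕ, u ^ ℓ ^ n = 1) :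
    ∑ d ∈ (chainsOn (psubIn ℓ Y) ⊥).filter (fun d => u ∈ stab d), (-1) ^ (d.card + 1) *
      ((Nat.card (Subgroup.centralizer ({u} : Set X) ⊓ stab d : Subgroup X) : ℤ) *
        (lnum (Subgroup.centralizer ({u} : Set X) ⊓ stab d) (br (top d) e) : ℤ)) = 0 := by
  have := Fact.mk hF.prime
  by_cases h0 : Subgroup.zpowers u ⊓ Y = ⊥
  · rw [hFxu ℓ X Y hY u hu (fun K R => (Nat.card K : ℤ) * (lnum K (br R e) : ℤ)),
      (hCux ℓ F X (Subgroup.centralizer ({u} : Set X)) (Subgroup.centralizer ({u} : Set X) ⊓ Y)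
        inf_le_left e).1, hGue ℓ F hF _ _ ?_ _ (idem_cent hB hF he hu)]
    · exact hyp u hu1 hu h0
    · have h1 : (Subgroup.centralizer ({u} : Set X) ⊓ Y).subgroupOf
          (Subgroup.centralizer ({u} : Set X)) = Y.subgroupOf
          (Subgroup.centralizer ({u} : Set X)) := by
        ext t
        rw [Subgroup.mem_subgroupOf, Subgroup.mem_subgroupOf, Subgroup.mem_inf]
        exact ⟨fun h => h.2, fun h => ⟨t.2, h⟩⟩
      rw [h1]
      exact hY.subgroupOf _
  · refine hCan ℓ X Y hY u hu h0 (fun K R => (Nat.card K : ℤ) * (lnum K (br R e) : ℤ)) ?_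
    intro K R hK
    show (Nat.card K : ℤ) * _ = (Nat.card K : ℤ) * _
    rw [H97.lnum_congr K (fun t ht => br_sup_inf (hK ht) Y R e)]

end

theorem rkr (hS : SmtStmt) (hSO : SmoStmt) (hB : BrmStmt) (hCan : CanStmt) (hFxu : FxuStmt)
    (hCux : CuxStmt) (hGue : GueStmt) : RkrStmt := by
  intro ℓ F _ hF X _ _ Y hY e he hyp
  classical
  have := Fintype.ofFinite X
  have hG := gu_zero hB hCan hFxu hCux hGue hF Y hY he hyp
  let W : Subgroup X → Subgroup X → ℤ := fun K R => (Nat.card K : ℤ) * (lnum K (br R e) : ℤ)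
  constructor
  · have h1 : ∀ d ∈ chainsOn (psubIn ℓ Y) ⊥, (-1) ^ (d.card + 1) *
        ((Nat.card (stab d) : ℤ) * (rk (fun t : stab d => br (top d) e t) (cfs F (stab d)) : ℤ)) =
        ∑ u ∈ Finset.univ.filter (fun u : X => ∃ n : ℕ, u ^ ℓ ^ n = 1),
          if u ∈ stab d then (-1) ^ (d.card + 1) *
            W (Subgroup.centralizer ({u} : Set X) ⊓ stab d) (top d) else 0 := by
      intro d hd
      have h := H97.smt_sub hS hF (stab d) (br (top d) e) (H97.isIdem_br hB hF he (chainsOn_top hd))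
      have h' : (Nat.card (stab d) : ℤ) * (rk (fun t : stab d => br (top d) e t)
          (cfs F (stab d)) : ℤ) = ∑ u ∈ Finset.univ.filter (fun u : X => ∃ n : ℕ, u ^ ℓ ^ n = 1),
          if u ∈ stab d then W (Subgroup.centralizer ({u} : Set X) ⊓ stab d) (top d) else 0 := by
        rw [← Nat.cast_mul, h, Nat.cast_sum]
        refine Finset.sum_congr rfl fun u _ => ?_
        by_cases hu : u ∈ stab d
        · rw [if_pos hu, if_pos hu, Nat.cast_mul]
        · rw [if_neg hu, if_neg hu, Nat.cast_zero]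
      rw [h', Finset.mul_sum]
      refine Finset.sum_congr rfl fun u _ => ?_
      rw [mul_ite, mul_zero]
    rw [Finset.sum_congr rfl h1, Finset.sum_comm, Finset.sum_eq_single 1]
    · rw [← hGue ℓ F hF X Y hY e he]
      refine Finset.sum_congr rfl fun d _ => ?_
      have h2 : Subgroup.centralizer ({1} : Set X) ⊓ stab d = stab d := by
        rw [inf_eq_right]
        intro g _
        rw [Subgroup.mem_centralizer_singleton_iff, one_mul, mul_one]
      rw [if_pos (one_mem _), h2]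
    · intro u hu hu1
      rw [← Finset.sum_filter]
      exact hG u hu1 (Finset.mem_filter.1 hu).2
    · intro h
      exact absurd (Finset.mem_filter.2 ⟨Finset.mem_univ _, 0, one_pow _⟩) h
  · intro L hL hYL hi
    have h1 : ∀ d ∈ chainsOn (psubIn ℓ Y) ⊥, (-1) ^ (d.card + 1) *
        ((Nat.card (stab d) : ℤ) * (rk (fun t : stab d => br (top d) e t)
          (cfsO F (L.subgroupOf (stab d))) : ℤ)) =
        ∑ u ∈ Finset.univ.filter (fun u : X => (∃ n : ℕ, u ^ ℓ ^ n = 1) ∧ u ∉ L),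
          if u ∈ stab d then (-1) ^ (d.card + 1) *
            W (Subgroup.centralizer ({u} : Set X) ⊓ stab d) (top d) else 0 := by
      intro d hd
      have h := smo_sub hSO hF (stab d) L hL hi (br (top d) e)
        (H97.isIdem_br hB hF he (chainsOn_top hd))
      have h' : (Nat.card (stab d) : ℤ) * (rk (fun t : stab d => br (top d) e t)
          (cfsO F (L.subgroupOf (stab d))) : ℤ) =
          ∑ u ∈ Finset.univ.filter (fun u : X => (∃ n : ℕ, u ^ ℓ ^ n = 1) ∧ u ∉ L),
          if u ∈ stab d then W (Subgroup.centralizer ({u} : Set X) ⊓ stab d) (top d) else 0 := by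
        rw [← Nat.cast_mul, h, Nat.cast_sum]
        refine Finset.sum_congr rfl fun u _ => ?_
        by_cases hu : u ∈ stab d
        · rw [if_pos hu, if_pos hu, Nat.cast_mul]
        · rw [if_neg hu, if_neg hu, Nat.cast_zero]
      rw [h', Finset.mul_sum]
      refine Finset.sum_congr rfl fun u _ => ?_
      rw [mul_ite, mul_zero]
    rw [Finset.sum_congr rfl h1, Finset.sum_comm]
    apply Finset.sum_eq_zero
    intro u hu
    obtain ⟨-, hu2, hu3⟩ := Finset.mem_filter.1 hu
    rw [← Finset.sum_filter]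
    refine hG u ?_ hu2
    rintro rfl
    exact hu3 L.one_mem

end Pool.Agent.PP.H67
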