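import Pool.Agent.Helper67_PP.Asm
import Pool.Agent.Helper65_PP.Sup
import Pool.Agent.Helper74_PP.ChfS
import Pool.Agent.Helper94_PP.Pse
import Pool.Agent.Helper63_PP.Str

/-!
# SI1: the case of a simple chief factor (`S1nStmt`)
-/

open scoped BigOperators

set_option linter.unusedSectionVars false

noncomputable section

namespace Pool.Agent.PP.H67

open Pool.Agent.Helper51_AWC Pool.Agent.Helper79_WRA Pool.Agent.PP

section

variable {ℓ : ℕ} [Fact ℓ.Prime] {F : Type} [Field F] {G : Type} [Group G] [Finite G]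

/-- if `O_ℓ(N) = 1` then the central elements of `N` of order a power of `ℓ` are trivial -/
theorem not_dvd_central {N : Subgroup G} (hO : opCore ℓ N = ⊥) :
    ¬ ℓ ∣ Nat.card ((Subgroup.center G).subgroupOf N) := by
  have hℓ := (inferInstance : Fact ℓ.Prime)
  intro hdvd
  obtain ⟨x, hx⟩ := exists_prime_orderOf_dvd_card' ℓ hdvd
  have hxc : ((x : N) : G) ∈ Subgroup.center G := x.2
  have hx1 : (x : N) ^ ℓ = 1 := by
    rw [← hx]
    exact congrArg Subtype.val (pow_orderOf_eq_one x)
  have h1 : Subgroup.zpowers (x : N) ≤ opCore ℓ N := by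
    apply le_sSup
    refine ⟨⟨?_⟩, ?_⟩
    · rintro _ ⟨k, rfl⟩ g
      have h2 : g * (x : N) ^ k * g⁻¹ = (x : N) ^ k := by
        have h3 : Commute g (x : N) :=
          Subtype.ext (Subgroup.mem_center_iff.1 hxc g)
        rw [(h3.zpow_right k).eq, mul_inv_cancel_right]
      change g * (x : N) ^ k * g⁻¹ ∈ _
      rw [h2]
      exact ⟨k, rfl⟩
    · rintro ⟨_, k, rfl⟩
      refine ⟨1, Subtype.ext ?_⟩
      change ((x : N) ^ k) ^ ℓ ^ 1 = 1
      rw [pow_one, ← zpow_natCast, ← zpow_mul, mul_comm, zpow_mul, zpow_natCast, hx1, one_zpow]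
  rw [hO] at h1
  have h2 := h1 (Subgroup.mem_zpowers _)
  rw [Subgroup.mem_bot] at h2
  have h3 : x = 1 := Subtype.ext h2
  rw [h3, orderOf_one] at hx
  exact hℓ.out.one_lt.ne hx

/-- positivity over an `ℓ'`-group -/
theorem eq_zero_of_pos {N : Subgroup G} (hN : ¬ ℓ ∣ Nat.card N) {e : G → F} (hPos : Pos ℓ e N) :
    e = 0 := by
  have hfin := Fintype.ofFinite G
  obtain ⟨n, hn⟩ := hPos 1 N.one_mem (fun h => hN (h.trans (Subgroup.card_dvd_of_le inf_le_right)))
  have h1 : mulF (clsum F N 1) = id := by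
    funext a g
    unfold mulF
    rw [finsum_eq_single _ (1 : G)]
    · rw [inv_one, one_mul, id]
      unfold clsum
      rw [if_pos ⟨1, N.one_mem, by simp⟩, one_mul]
    · intro t ht
      unfold clsum
      rw [if_neg, zero_mul]
      rintro ⟨q, _, hq⟩
      apply ht
      rw [hq]
      group
  rw [h1, Function.iterate_id] at hn
  exact hn

theorem lnum_zero (hF : GoodF ℓ F) (X : Subgroup G) : lnum X (0 : G → F) = 0 := by
  unfold lnum
  rw [Set.ncard_eq_zero (Set.Finite.subset (H20.ibf ℓ F hF X).1 (fun f hf => hf.1))]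
  rw [Set.eq_empty_iff_forall_notMem]
  rintro f ⟨hf, hfe⟩
  apply H65.ibr_ne_zero hF hf
  rw [← hfe]
  funext x
  unfold actF
  simp

theorem YY_zero (hF : GoodF ℓ F) (N : Subgroup G) : YY ℓ N (0 : G → F) = 0 := by
  unfold YY
  apply Finset.sum_eq_zero
  intro d _
  rw [lnum_zero hF]
  simp

end

/-- SI1 -/
theorem s1n (hcvr : CvrStmt) (hpow : PowStmt) (hlma : LmaStmt) (hlqu : LquStmt) : S1nStmt := by
  intro ℓ hℓ F _ hF G _ _ N hN hO hS hnil hG hY e he hPos
  by_cases hdvd : ℓ ∣ Nat.card (N ⧸ (Subgroup.center G).subgroupOf N)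
  · refine s1_core hcvr H74.chfStmt hpow H94.pse H63.str hlqu hlma hF hN hO hS hnil hY ?_ ?_ he hPos
    · intro D _ _ h1 h2 h3 f hf hz hp
      have hI : Involves N (N ⧸ (Subgroup.center G).subgroupOf N) :=
        Involves.of_surjective (QuotientGroup.mk' _) (QuotientGroup.mk'_surjective _)
          (Involves.refl _)
      refine hG _ hS hdvd hI D h1 ?_ h3 f hf hz hp
      first
        | exact h2.nearlySimple
        | exact h2
    · intro E _ _ p K _ hp
      exact hG.cover p hp K
  · have h1 : ¬ ℓ ∣ Nat.card N := by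
      rw [Subgroup.card_eq_card_quotient_mul_card_subgroup ((Subgroup.center G).subgroupOf N),
        hℓ.out.dvd_mul, not_or]
      exact ⟨hdvd, not_dvd_central hO⟩
    rw [eq_zero_of_pos h1 hPos]
    exact YY_zero hF N

end Pool.Agent.PP.H67
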