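import Pool.Agent.Helper46_PP.StmtsTop

/-!
# SI1: the statement LQU

The end of the proof of S1 in the group `D`: the hypothesis is used only for nearly simple groups
whose outer part is a nilpotent group of order prime to `ℓ`.
-/

open scoped BigOperators

noncomputable section

namespace Pool.Agent.PP.H67

open Pool.Agent.Helper51_AWC Pool.Agent.Helper79_WRA Pool.Agent.PP

/-- LQU: the end of the proof of S1, in the group `D`. -/
def LquStmt : Prop := ∀ (ℓ : ℕ) [Fact ℓ.Prime] (F : Type) [Field F], GoodF ℓ F →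
  ∀ (S : Type) [Group S] [Finite S], NASimple S →
  ∀ (D : Type) [Group D] [Finite D] (M : Subgroup D), M.Normal → opCore ℓ D = ⊥ →
  NearlySimple D S → Subgroup.centralizer (M : Set D) = Subgroup.center D →
  ¬ ℓ ∣ Nat.card (Subgroup.center D) → Subgroup.center D ≤ M → mu M = Nat.card S →
  GoodP ℓ F M → Ylt ℓ F (mu M) →
  -- the hypothesis on nearly simple groups
  (∀ (D₀ : Type) [Group D₀] [Finite D₀] (i : D₀ →* D), Function.Injective i →
    opCore ℓ D₀ = ⊥ → NearlySimpleL ℓ D₀ S → ∀ f₀ : D₀ → F, IsIdem f₀ →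
    (∀ z ∈ Subgroup.center D₀, z ≠ 1 → ∃ c : F, c ≠ 1 ∧ ∀ x, f₀ (z * x) = c * f₀ x) →
    Pos ℓ f₀ ⊤ → YY ℓ ⊤ f₀ = 0) →
  ∀ f : D → F, IsIdem f →
  (∀ z ∈ Subgroup.center D, z ≠ 1 → ∃ c : F, c ≠ 1 ∧ ∀ x, f (z * x) = c * f x) →
  Pos ℓ f M → YY ℓ M f = 0

end Pool.Agent.PP.H67
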