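import Pool.Agent.Helper67_PP.ClsFin
import Pool.Agent.Helper67_PP.StmtsU
import Pool.Agent.Helper94_PP.Nch
import Pool.Agent.Helper18_PP.Good

/-!
SI1: assembly.
-/

open scoped BigOperators

set_option linter.unusedSectionVars false

noncomputable section

namespace Pool.Agent.PP.H67

open Pool.Agent.Helper51_AWC Pool.Agent.Helper79_WRA Pool.Agent.PP

theorem card_ker_mul {E G : Type} [Group E] [Group G] (f : E →* G) (H : Subgroup E)
    (h : f.ker ≤ H) : Nat.card f.ker * Nat.card (H.map f) = Nat.card H := by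
  have h1 := Subgroup.relIndex_mul_relIndex ⊥ f.ker H bot_le h
  rw [Subgroup.relIndex_bot_left, Subgroup.relIndex_bot_left, Subgroup.relIndex_ker] at h1
  exact h1

theorem scalar_inj {F : Type} [Field F] {n : ℕ} (hn : 0 < n) {w w' : F}
    (h : Matrix.scalar (Fin n) w = Matrix.scalar (Fin n) w') : w = w' := by
  have := congrFun (congrFun h ⟨0, hn⟩) ⟨0, hn⟩
  simpa using this

section cover

variable {ℓ : ℕ} {F G E : Type} [Field F] [Group G] [Finite G] [Group E] [Finite E] {n : ℕ}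
  {C L : Subgroup G} {ρ : C →* Matrix (Fin n) (Fin n) F} {p : E →* G}
  {α : E →* Matrix (Fin n) (Fin n) F} {K : Subgroup E}

theorem Cover.map_K (h : Cover ℓ C L ρ p α K) : K.map p = C := by
  ext g
  constructor
  · rintro ⟨x, hx, rfl⟩
    obtain ⟨c, hc, -⟩ := (h.mem x).1 hx
    rw [hc]
    exact c.2
  · intro hg
    obtain ⟨x, hx, hx'⟩ := h.lift ⟨g, hg⟩
    exact ⟨x, (h.mem x).2 ⟨⟨g, hg⟩, hx, hx'⟩, hx⟩

theorem Cover.inf_ker (h : Cover ℓ C L ρ p α K) : K ⊓ p.ker = ⊥ := by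
  rw [eq_bot_iff]
  rintro x ⟨hx, hx'⟩
  obtain ⟨c, hc, hc'⟩ := (h.mem x).1 hx
  have h1 : p x = 1 := hx'
  have h2 : c = 1 := by
    apply Subtype.ext
    rw [← hc, h1]
    rfl
  rw [h2, map_one] at hc'
  exact Subgroup.mem_bot.2 (h.faithful x h1 hc')

theorem Cover.cyclic (h : Cover ℓ C L ρ p α K) : IsCyclic p.ker := by
  have hn := h.irr.1
  have hval : ∀ x : p.ker, α x = Matrix.scalar (Fin n) (α x ⟨0, hn⟩ ⟨0, hn⟩) := by
    intro x
    obtain ⟨z, hz⟩ := h.scalar x x.2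
    have h1 : α x ⟨0, hn⟩ ⟨0, hn⟩ = z := by rw [hz]; simp
    rw [h1, hz]
  let f : p.ker →* F :=
    { toFun := fun x => α x ⟨0, hn⟩ ⟨0, hn⟩
      map_one' := by
        show α ((1 : p.ker) : E) ⟨0, hn⟩ ⟨0, hn⟩ = 1
        have : ((1 : p.ker) : E) = 1 := rfl
        rw [this, map_one]
        simp
      map_mul' := by
        intro x y
        show α ((x * y : p.ker) : E) ⟨0, hn⟩ ⟨0, hn⟩ =
          α x ⟨0, hn⟩ ⟨0, hn⟩ * α y ⟨0, hn⟩ ⟨0, hn⟩
        have e : ((x * y : p.ker) : E) = x * y := rfl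
        rw [e, map_mul, hval x, hval y]
        simp }
  have hf : Function.Injective f := by
    rw [injective_iff_map_eq_one]
    intro x hx
    have h1 : α x ⟨0, hn⟩ ⟨0, hn⟩ = 1 := hx
    apply Subtype.ext
    apply h.faithful x x.2
    rw [hval x, h1, map_one]
  exact isCyclic_of_injective_ringHom f hf

end cover

section s1

variable {ℓ : ℕ} [Fact ℓ.Prime] {F : Type} [Field F] {G : Type} [Group G]
  [Finite G]

/-- the centraliser of `N` stabilises the chains of `N` -/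
theorem cent_le_stab {N : Subgroup G} {d : Finset (Subgroup G)}
    (hd : d ∈ chainsOn (psubIn ℓ N) ⊥) : Subgroup.centralizer (N : Set G) ≤ stab d := by
  rw [mem_chainsOn] at hd
  intro c hc
  rw [H94.mem_stab']
  intro D hD
  have hDN : D ≤ N := (mem_psubIn.1 (hd.1 hD)).1
  rw [Subgroup.mem_normalizer_iff]
  intro x
  have hcx : ∀ y ∈ N, c * y * c⁻¹ = y := by
    intro y hy
    rw [← Subgroup.mem_centralizer_iff.1 hc y hy]
    group
  constructor
  · intro hx
    rw [hcx x (hDN hx)]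
    exact hx
  · intro hx
    have h3 := hcx _ (hDN hx)
    have h5 : c⁻¹ * (c * (c * x * c⁻¹) * c⁻¹) * c = c⁻¹ * (c * x * c⁻¹) * c := by rw [h3]
    have e1 : c⁻¹ * (c * (c * x * c⁻¹) * c⁻¹) * c = c * x * c⁻¹ := by group
    have e2 : c⁻¹ * (c * x * c⁻¹) * c = x := by group
    rw [e1, e2] at h5
    rw [h5] at hx
    exact hx

/-- The reduction to the nearly simple group for one `θ`. -/
theorem s1_theta (hchf : ChfStmt) (hpow : PowStmt) (hpse : PseStmt) (hstr : StrStmt)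
    (hlqu : LquStmt) (hlma : LmaStmt) (hF : GoodF ℓ F)
    {N : Subgroup G} (hN : N.Normal) (hO : opCore ℓ N = ⊥)
    (hS : NASimple (N ⧸ (Subgroup.center G).subgroupOf N)) (hnil : NilOut N)
    (hY : Ylt ℓ F (mu N))
    (hyp : ∀ (D : Type) [Group D] [Finite D], opCore ℓ D = ⊥ →
      NearlySimpleL ℓ D (N ⧸ (Subgroup.center G).subgroupOf N) →
      Involves G (D ⧸ Subgroup.center D) → ∀ f : D → F, IsIdem f →
      (∀ z ∈ Subgroup.center D, z ≠ 1 → ∃ c : F, c ≠ 1 ∧ ∀ x, f (z * x) = c * f x) →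
      Pos ℓ f ⊤ → YY ℓ ⊤ f = 0)
    (hgood : ∀ (E : Type) [Group E] [Finite E] (p : E →* G) (K : Subgroup E) [K.Normal],
      (∀ x, p x = 1 → x ∈ Subgroup.center E) →
      GoodP ℓ F ((N.comap p).map (QuotientGroup.mk' K)))
    {e : G → F} (he : IsIdem e) (hPos : Pos ℓ e N) (hC : (Subgroup.centralizer (N : Set G)).Normal)
    {n : ℕ} {ρ : Subgroup.centralizer (N : Set G) →* Matrix (Fin n) (Fin n) F} {E : Type}
    [Group E] [Finite E] {p : E →* G} {α : E →* Matrix (Fin n) (Fin n) F} {K : Subgroup E}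
    [K.Normal] (hcov : Cover ℓ (Subgroup.centralizer (N : Set G)) (stC hC (tr ρ)) ρ p α K) :
    ∑ d ∈ chainsOn (psubIn ℓ N) ⊥, (-1) ^ (d.card + 1) *
      ((Nat.card (stab d ⊓ stC hC (tr ρ) : Subgroup G) : ℤ) *
        ((LT (stab d ⊓ stC hC (tr ρ)) (tr ρ) e).ncard : ℤ)) = 0 := by
  classical
  have hF' := hF.char
  obtain ⟨s, hs1, hs2, hs3, hs4⟩ := hlma ℓ F hF G E _ hC n ρ p α K hcov e he
  -- the irreducible representations of `D`
  have hkey : ∀ (m : ℕ) (κ : E ⧸ K →* Matrix (Fin m) (Fin m) F) (w : F), IsIrr κ →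
      ev κ s = Matrix.scalar (Fin m) w → w ≠ 0 → w = 1 ∧
      ∃ (k : ℕ) (σ : G →* Matrix (Fin k) (Fin k) F) (P : Matrix (Fin (n * m)) (Fin k) F)
        (Q : Matrix (Fin k) (Fin (n * m)) F), IsIrr σ ∧ ev σ e = 1 ∧ P * Q = 1 ∧
        ∀ x : E, Q * P * σ (p x) = σ (p x) * (Q * P) ∧ P * σ (p x) * Q = kr (α x) (κ x) := by
    intro m κ w hκ hw hw0
    obtain ⟨σ', h1, h2, h3, h4⟩ := hs4 m κ w hκ hw hw0
    obtain ⟨k, σ, P, Q, k1, k2, k3, k4, k5⟩ := clr ℓ F hF G _ hC n (n * m) ρ σ' hcov.irr h1 h2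
    obtain ⟨w', l1, -, l3⟩ := H20.eig F G k σ k1 e he.1
    have hnm : 0 < n * m := Nat.mul_pos hcov.irr.1 hκ.1
    have h5 : w = w' := scalar_inj hnm (h4.symm.trans (k5 e w' he.1 l1))
    have h6 : w = 1 := by
      rcases l3 he with h | h
      · exact absurd (h5.trans h) hw0
      · exact h5.trans h
    refine ⟨h6, k, σ, P, Q, k1, ?_, k2, ?_⟩
    · rw [l1, ← h5, h6, map_one]
    · intro x
      have hx : p x ∈ stC hC (tr ρ) := by
        rw [← hcov.range]
        exact ⟨x, rfl⟩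
      refine ⟨k4 ⟨p x, hx⟩, ?_⟩
      rw [← h3 x hx]
      exact k3 ⟨p x, hx⟩
  obtain ⟨f, hf1, hf2, hf3, hf4⟩ := hpow ℓ F hF (E ⧸ K) s hs1 (by
    intro m κ w hκ hw
    by_cases h0 : w = 0
    · exact Or.inl h0
    · exact Or.inr (hkey m κ w hκ hw h0).1)
  -- the structure of `D`
  have hNC : ∀ x ∈ N, ∀ c ∈ Subgroup.centralizer (N : Set G), x * c = c * x :=
    fun x hx c hc => Subgroup.mem_centralizer_iff.1 hc x hx
  have hNL : N ≤ stC hC (tr ρ) := by
    intro g hg c
    congr 1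
    apply Subtype.ext
    show g * (c : G) * g⁻¹ = c
    rw [hNC g hg c c.2]
    group
  have hNr : N ≤ p.range := by rw [hcov.range]; exact hNL
  obtain ⟨t1, t2, t3, t5, t4, t6, t7, t8, t9, t10⟩ := hstr ℓ G E N hN hO hS hnil p K hNr
    (by rw [hcov.range]; exact hcov.le) hcov.central hcov.prime hcov.map_K hcov.inf_ker
  have hmapN : (N.comap p).map p = N := by
    rw [Subgroup.map_comap_eq]
    exact inf_eq_right.2 hNr
  have hCN : ¬ ℓ ∣ Nat.card (Subgroup.centralizer (N : Set G) ⊓ N : Subgroup G) := by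
    intro h
    apply t2
    have h1 : (K ⊓ N.comap p).map p = Subgroup.centralizer (N : Set G) ⊓ N := by
      ext g
      constructor
      · rintro ⟨x, ⟨hx, hx'⟩, rfl⟩
        refine ⟨?_, hx'⟩
        rw [← hcov.map_K]
        exact ⟨x, hx, rfl⟩
      · rintro ⟨hg, hg'⟩
        have h2 : g ∈ K.map p := by rw [hcov.map_K]; exact hg
        obtain ⟨x, hx, rfl⟩ := h2
        exact ⟨x, ⟨hx, hg'⟩, rfl⟩
    rw [← h1] at h
    exact h.trans (Subgroup.card_map_dvd _ p)
  -- positivity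
  have hPosf : Pos ℓ f ((N.comap p).map (QuotientGroup.mk' K)) := by
    refine hpse ℓ F hF G E _ _ n ρ p α K hC hcov N hN hNL hNC hCN e he hPos f hf1 ?_
    intro m κ hκ h0
    obtain ⟨w, hw, -, -⟩ := H20.eig F (E ⧸ K) m κ hκ s hs1
    have hw0 : w ≠ 0 := by
      rintro rfl
      apply h0
      rw [hf2 m κ hκ, hw, map_zero]
    exact (hkey m κ w hκ hw hw0).2
  -- faithfulness
  have hfaith : ∀ z ∈ Subgroup.center (E ⧸ K), z ≠ 1 →
      ∃ c : F, c ≠ 1 ∧ ∀ x, f (z * x) = c * f x := by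
    intro z hz hz1
    rw [t4] at hz
    obtain ⟨y, hy, rfl⟩ := hz
    have hy1 : p y = 1 := hy
    obtain ⟨c, hc⟩ := hcov.scalar y hy1
    refine ⟨c, ?_, hf4 _ c ?_⟩
    · rintro rfl
      apply hz1
      have h1 : y = 1 := hcov.faithful y hy1 (by rw [hc, map_one])
      rw [h1, map_one]
    · intro x
      obtain ⟨x, rfl⟩ := QuotientGroup.mk'_surjective K x
      have h1 := hs2 x
      have h2 := hs2 (y * x)
      have hK := Fintype.ofFinite K
      rw [finsum_eq_sum_of_fintype] at h1 h2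
      have h3 : ∀ k : K, ((Nat.card p.ker : F)⁻¹ * e (p (y * x * k))) • α (y * x * k) =
          c • (((Nat.card p.ker : F)⁻¹ * e (p (x * k))) • α (x * k)) := by
        intro k
        rw [mul_assoc y, map_mul p, hy1, one_mul, map_mul α, hc, Matrix.scalar_apply,
          ← Matrix.smul_eq_diagonal_mul, smul_comm]
      rw [Finset.sum_congr rfl (fun k _ => h3 k), ← Finset.smul_sum, h1] at h2
      apply scalar_inj hcov.irr.1
      have h4 : Matrix.scalar (Fin n) (c * s (QuotientGroup.mk' K x)) =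
          c • Matrix.scalar (Fin n) (s (QuotientGroup.mk' K x)) := by
        rw [Matrix.scalar_apply, Matrix.scalar_apply, ← Matrix.smul_one_eq_diagonal,
          ← Matrix.smul_one_eq_diagonal, smul_smul]
      rw [h4]
      exact h2.symm
  have hfin : YY ℓ ((N.comap p).map (QuotientGroup.mk' K)) f = 0 := by
    refine hlqu ℓ F hF (N ⧸ (Subgroup.center G).subgroupOf N) hS (E ⧸ K) _ t6 t3 t5 t7 t8 t9
      (t10.trans (Subgroup.index_eq_card _)) (hgood E p K hcov.central) ?_ ?_ f hf1 hfaith hPosf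
    · rw [t10]
      exact hY
    · intro D₀ _ _ i hi h1 h2
      refine hyp D₀ h1 h2 ?_
      obtain ⟨T, hT⟩ := h2.nearlySimple.socle hS
      refine hT.involves_central p hcov.central ?_
      exact Involves.of_surjective (QuotientGroup.mk' K) (QuotientGroup.mk'_surjective K)
        (Involves.of_injective i hi (Involves.of_surjective (QuotientGroup.mk' _)
          (QuotientGroup.mk'_surjective _) (Involves.refl _)))
  -- the chains
  have hM : (N.comap p).Normal := hN.comap p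
  have hCst : ∀ d ∈ chainsOn (psubIn ℓ N) ⊥, Subgroup.centralizer (N : Set G) ≤ stab d :=
    fun d hd => cent_le_stab hd
  have hkerp : ∀ X : Subgroup G, p.ker ≤ X.comap p := by
    intro X x hx
    have h1 : p x = 1 := hx
    rw [Subgroup.mem_comap, h1]
    exact X.one_mem
  have hcount : ∀ X : Subgroup G, Subgroup.centralizer (N : Set G) ≤ X →
      Nat.card p.ker * Nat.card (X ⊓ stC hC (tr ρ) : Subgroup G) =
        Nat.card K * Nat.card ((X.comap p).map (QuotientGroup.mk' K)) := by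
    intro X hX
    have h1 := card_ker_mul p (X.comap p) (hkerp X)
    have h2 := card_ker_mul (QuotientGroup.mk' K) (X.comap p) (by
      rw [QuotientGroup.ker_mk']
      intro x hx
      obtain ⟨c, hc, -⟩ := (hcov.mem x).1 hx
      rw [Subgroup.mem_comap, hc]
      exact hX c.2)
    rw [Subgroup.map_comap_eq, hcov.range] at h1
    rw [QuotientGroup.ker_mk'] at h2
    rw [h2, ← h1, inf_comm]
  have hcl : Nat.card p.ker ≠ 0 := Nat.card_pos.ne'
  have hcl' : (Nat.card p.ker : ℤ) ≠ 0 := by exact_mod_cast hcl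
  apply (mul_eq_zero.1 ?_).resolve_left hcl'
  rw [Finset.mul_sum]
  have hw := hchf ℓ E G p (N.comap p) hM (fun k hk m _ => by
      have := Subgroup.mem_center_iff.1 (hcov.central k hk) m
      exact this.symm) (fun h => hcov.prime (h.trans (Subgroup.card_dvd_of_le inf_le_left)))
    (fun Y => (Nat.card (Y.map (QuotientGroup.mk' K)) : ℤ) *
      (lnum (Y.map (QuotientGroup.mk' K)) s : ℤ))
  have hw' := hchf ℓ E (E ⧸ K) (QuotientGroup.mk' K) (N.comap p) hM (fun k hk m hm => by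
      apply t1 k _ m hm
      rw [← QuotientGroup.ker_mk' K]
      exact hk) (by rw [QuotientGroup.ker_mk']; exact t2)
    (fun Y => (Nat.card (Y.map (QuotientGroup.mk' K)) : ℤ) *
      (lnum (Y.map (QuotientGroup.mk' K)) s : ℤ))
  rw [hmapN] at hw
  have hmc : ∀ Y : Subgroup (E ⧸ K), (Y.comap (QuotientGroup.mk' K)).map (QuotientGroup.mk' K) =
      Y := by
    intro Y
    rw [Subgroup.map_comap_eq, MonoidHom.range_eq_top.2 (QuotientGroup.mk'_surjective K), top_inf_eq]
  simp only [hmc] at hw'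
  have hYY : YY ℓ ((N.comap p).map (QuotientGroup.mk' K)) s = 0 := by
    rw [← hf3 _ t6, hfin]
  rw [hw'] at hw
  change YY ℓ ((N.comap p).map (QuotientGroup.mk' K)) s = _ at hw
  rw [hYY] at hw
  have hfinal : ∀ d ∈ chainsOn (psubIn ℓ N) ⊥, (Nat.card p.ker : ℤ) * ((-1) ^ (d.card + 1) *
      ((Nat.card (stab d ⊓ stC hC (tr ρ) : Subgroup G) : ℤ) *
        ((LT (stab d ⊓ stC hC (tr ρ)) (tr ρ) e).ncard : ℤ))) = (Nat.card K : ℤ) *
      ((-1) ^ (d.card + 1) * ((Nat.card (((stab d).comap p).map (QuotientGroup.mk' K)) : ℤ) *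
      (lnum (((stab d).comap p).map (QuotientGroup.mk' K)) s : ℤ))) := by
    intro d hd
    have h1 := hcount (stab d) (hCst d hd)
    rw [hs3 (stab d) (hCst d hd)]
    have h2 : (Nat.card p.ker : ℤ) * (Nat.card (stab d ⊓ stC hC (tr ρ) : Subgroup G) : ℤ) =
        (Nat.card K : ℤ) * (Nat.card (((stab d).comap p).map (QuotientGroup.mk' K)) : ℤ) := by
      exact_mod_cast h1
    linear_combination ((-1) ^ (d.card + 1) *
      (lnum (((stab d).comap p).map (QuotientGroup.mk' K)) s : ℤ)) * h2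
  rw [Finset.sum_congr rfl hfinal, ← Finset.mul_sum, ← hw, mul_zero]

/-- S1, the case of a simple chief factor, with the hypotheses on nearly simple groups and on the
induction in a general form. -/
theorem s1_core (hcvr : CvrStmt) (hchf : ChfStmt) (hpow : PowStmt) (hpse : PseStmt)
    (hstr : StrStmt) (hlqu : LquStmt) (hlma : LmaStmt) (hF : GoodF ℓ F)
    {N : Subgroup G} (hN : N.Normal) (hO : opCore ℓ N = ⊥)
    (hS : NASimple (N ⧸ (Subgroup.center G).subgroupOf N)) (hnil : NilOut N)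
    (hY : Ylt ℓ F (mu N))
    (hyp : ∀ (D : Type) [Group D] [Finite D], opCore ℓ D = ⊥ →
      NearlySimpleL ℓ D (N ⧸ (Subgroup.center G).subgroupOf N) →
      Involves G (D ⧸ Subgroup.center D) → ∀ f : D → F, IsIdem f →
      (∀ z ∈ Subgroup.center D, z ≠ 1 → ∃ c : F, c ≠ 1 ∧ ∀ x, f (z * x) = c * f x) →
      Pos ℓ f ⊤ → YY ℓ ⊤ f = 0)
    (hgood : ∀ (E : Type) [Group E] [Finite E] (p : E →* G) (K : Subgroup E) [K.Normal],
      (∀ x, p x = 1 → x ∈ Subgroup.center E) →
      GoodP ℓ F ((N.comap p).map (QuotientGroup.mk' K)))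
    {e : G → F} (he : IsIdem e) (hPos : Pos ℓ e N) : YY ℓ N e = 0 := by
  classical
  have hC : (Subgroup.centralizer (N : Set G)).Normal := inferInstance
  have hfin : (IBr F (Subgroup.centralizer (N : Set G))).Finite := (H20.ibf ℓ F hF _).1
  have h1 : ∀ d ∈ chainsOn (psubIn ℓ N) ⊥, (-1 : ℤ) ^ (d.card + 1) *
      ((Nat.card (stab d) : ℤ) * (lnum (stab d) e : ℤ)) = ∑ θ ∈ hfin.toFinset,
        (-1) ^ (d.card + 1) * ((Nat.card (stab d ⊓ stC hC θ : Subgroup G) : ℤ) *
          ((LT (stab d ⊓ stC hC θ) θ e).ncard : ℤ)) := by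
    intro d hd
    rw [cls ℓ F hF G _ hC (stab d) (cent_le_stab hd) e he.1,
      finsum_mem_eq_finite_toFinset_sum _ hfin, Finset.mul_sum]
  rw [YY, Finset.sum_congr rfl h1, Finset.sum_comm]
  apply Finset.sum_eq_zero
  intro θ hθ
  obtain ⟨n, ρ, hρ, rfl⟩ := (Set.Finite.mem_toFinset hfin).1 hθ
  obtain ⟨E, _, _, p, α, K, hK, hcov⟩ := hcvr ℓ F hF G _ hC n ρ hρ
  exact s1_theta hchf hpow hpse hstr hlqu hlma hF hN hO hS hnil hY hyp hgood he hPos hC hcov

end s1

end Pool.Agent.PP.H67
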