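import Pool.Agent.Helper67_PP.Stmts
import Mathlib.LinearAlgebra.Matrix.Charpoly.Coeff

/-!
SI1, module CLS: the Clifford correspondence.  The radical of `F C` acts as zero.
-/

open scoped BigOperators

set_option linter.unusedSectionVars false

noncomputable section

namespace Pool.Agent.PP.H67

open Pool.Agent.Helper51_AWC Pool.Agent.Helper79_WRA Pool.Agent.PP

variable {F G : Type} [Field F] [Group G] [Finite G]

/-- the radical of `F C` -/
def Rd (C : Subgroup G) (a : G → F) : Prop :=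
  Sp C a ∧ ∀ (k : ℕ) (ρ : C →* Matrix (Fin k) (Fin k) F), IsIrr ρ → ex ρ a = 0

section rad

variable {C X : Subgroup G} {n : ℕ}

theorem Rd.cja (hC : C.Normal) {a : G → F} (ha : Rd C a) (g : G) : Rd C (cja g a) := by
  refine ⟨cja_sp hC g ha.1, fun k ρ hρ => ?_⟩
  rw [← ex_crep ρ hC]
  exact ha.2 k _ (irr_comp hρ _ (crep_surj hC g))

theorem Rd.mul_right {a b : G → F} (ha : Rd C a) (hb : Sp C b) : Rd C (mulF a b) := by
  refine ⟨sp_mulF ha.1 hb, fun k ρ hρ => ?_⟩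
  rw [ex_mulF_left ρ ha.1, ha.2 k ρ hρ, zero_mul]

theorem Rd.mul_left {a b : G → F} (ha : Rd C a) (hb : Sp C b) : Rd C (mulF b a) := by
  refine ⟨sp_mulF hb ha.1, fun k ρ hρ => ?_⟩
  rw [ex_mulF_left ρ hb, ha.2 k ρ hρ, mul_zero]

/-- the elements of the radical are nilpotent in every representation -/
theorem Rd.nil {ℓ : ℕ} (hF : GoodF ℓ F) (hX : C ≤ X) (σ : X →* Matrix (Fin n) (Fin n) F)
    {a : G → F} (ha : Rd C a) : IsNilpotent (ex σ a) := by
  obtain ⟨k, hk⟩ := H20.ibn ℓ F hF C (fun x : C => a x) (fun k ρ hρ => ha.2 k ρ hρ)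
  have h1 : (mulF a)^[k] a = 0 := by
    funext g
    by_cases hg : g ∈ C
    · have := iterate_sub (b := a) ha.1 k ⟨g, hg⟩
      rw [hk] at this
      exact this
    · exact sp_iterate ha.1 ha.1 k g hg
  have h2 := ex_iterate σ (ha.1.mono hX) k (b := a)
  rw [h1, ex_zero] at h2
  exact ⟨k + 1, by rw [pow_succ]; exact h2.symm⟩

theorem Rd.pow {hC : C.Normal} (hX : C ≤ X) (σ : X →* Matrix (Fin n) (Fin n) F)
    {a : G → F} (ha : Rd C a) (g : X) (j : ℕ) : ∃ w : G → F, Rd C w ∧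
      (σ g * ex σ a) ^ (j + 1) = σ (g ^ (j + 1)) * ex σ w := by
  induction j with
  | zero => exact ⟨a, ha, by rw [zero_add, pow_one, pow_one]⟩
  | succ j ih =>
    obtain ⟨w, hw, h⟩ := ih
    refine ⟨mulF (H67.cja ((g : G)⁻¹) w) a, (hw.cja hC _).mul_right ha.1, ?_⟩
    rw [pow_succ, h, ex_mulF_right σ (ha.1.mono hX)]
    have h1 : ex σ (H67.cja ((g : G)⁻¹) w) = σ g⁻¹ * ex σ w * σ g := by
      have := ex_cja σ g⁻¹ w
      rw [inv_inv] at this
      exact this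
    rw [h1]
    have h2 : σ (g ^ (j + 1 + 1)) * σ g⁻¹ = σ (g ^ (j + 1)) := by
      rw [← map_mul]
      congr 1
      rw [pow_succ g (j + 1)]
      group
    calc σ (g ^ (j + 1)) * ex σ w * (σ g * ex σ a)
        = (σ (g ^ (j + 1 + 1)) * σ g⁻¹) * ex σ w * (σ g * ex σ a) := by rw [h2]
      _ = σ (g ^ (j + 1 + 1)) * (σ g⁻¹ * ex σ w * σ g * ex σ a) := by
          simp only [mul_assoc]

/-- Clifford: the radical of `F C` acts as zero in the irreducible representations of `X`. -/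
theorem Rd.zero {ℓ : ℕ} (hF : GoodF ℓ F) (hC : C.Normal) (hX : C ≤ X)
    {σ : X →* Matrix (Fin n) (Fin n) F} (hσ : IsIrr σ) {a : G → F} (ha : Rd C a) :
    ex σ a = 0 := by
  rw [Matrix.ext_iff_trace_mul_left]
  intro B
  rw [mul_zero, Matrix.trace_zero]
  have hB : B ∈ Submodule.span F (Set.range σ) := by rw [hσ.2]; trivial
  induction hB using Submodule.span_induction with
  | mem x hx =>
    obtain ⟨g, rfl⟩ := hx
    obtain ⟨w, hw, h⟩ := Rd.pow (hC := hC) hX σ ha g (orderOf g - 1)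
    rw [Nat.sub_add_cancel (orderOf_pos g), pow_orderOf_eq_one, map_one, one_mul] at h
    have h1 : IsNilpotent (σ g * ex σ a) := by
      obtain ⟨k, hk⟩ := hw.nil hF hX σ
      refine ⟨orderOf g * k, ?_⟩
      rw [pow_mul, h, hk]
    exact (Matrix.isNilpotent_trace_of_isNilpotent h1).eq_zero
  | zero => rw [zero_mul, Matrix.trace_zero]
  | add x y _ _ hx hy => rw [add_mul, Matrix.trace_add, hx, hy, add_zero]
  | smul c x _ hx => rw [Matrix.smul_mul, Matrix.trace_smul, hx, smul_zero]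

theorem Rd.eq {ℓ : ℕ} (hF : GoodF ℓ F) (hC : C.Normal) (hX : C ≤ X)
    {σ : X →* Matrix (Fin n) (Fin n) F} (hσ : IsIrr σ) {a b : G → F} (ha : Sp C a) (hb : Sp C b)
    (h : ∀ (k : ℕ) (ρ : C →* Matrix (Fin k) (Fin k) F), IsIrr ρ → ex ρ a = ex ρ b) :
    ex σ a = ex σ b := by
  have h1 : Rd C (a - b) := by
    refine ⟨fun g hg => ?_, fun k ρ hρ => ?_⟩
    · rw [Pi.sub_apply, ha g hg, hb g hg, sub_zero]
    · rw [ex_sub, h k ρ hρ, sub_self]
  have h2 := h1.zero hF hC hX hσ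
  rw [ex_sub] at h2
  exact sub_eq_zero.1 h2

end rad

section eps

variable (F) (C : Subgroup G)

/-- the elements of `F C` with the values `1` at `θ` and `0` at the other characters -/
def IsEps (ε : (C → F) → G → F) : Prop :=
  ∀ θ ∈ IBr F C, Sp C (ε θ) ∧ ∀ (k : ℕ) (ρ : C →* Matrix (Fin k) (Fin k) F), IsIrr ρ →
    (tr ρ = θ → ex ρ (ε θ) = 1) ∧ (tr ρ ≠ θ → ex ρ (ε θ) = 0)

theorem exists_eps {ℓ : ℕ} (hF : GoodF ℓ F) : ∃ ε : (C → F) → G → F, IsEps F C ε := by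
  classical
  have hfin : (IBr F C).Finite := (H20.ibf ℓ F hF C).1
  have : Finite (IBr F C) := hfin
  have hch : ∀ θ : IBr F C, ∃ (k : ℕ) (ρ : C →* Matrix (Fin k) (Fin k) F), IsIrr ρ ∧ θ.1 = tr ρ :=
    fun θ => θ.2
  choose k ρ hρ htr using hch
  have hinj : Function.Injective (fun θ => tr (ρ θ)) := by
    intro θ θ' h
    apply Subtype.ext
    rw [htr, htr]
    exact h
  have hJ : ∀ θ : IBr F C, ∃ a : C → F, ∀ θ' : IBr F C,
      ev (ρ θ') a = if θ' = θ then 1 else 0 := fun θ =>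
    H20.ibj ℓ F hF C (IBr F C) k ρ hρ hinj (fun θ' => if θ' = θ then 1 else 0)
  choose a ha using hJ
  refine ⟨fun θ g => if h : θ ∈ IBr F C then (if h' : g ∈ C then a ⟨θ, h⟩ ⟨g, h'⟩ else 0) else 0,
    ?_⟩
  intro θ hθ
  have e : (fun g => if h : θ ∈ IBr F C then (if h' : g ∈ C then a ⟨θ, h⟩ ⟨g, h'⟩ else 0) else 0) =
      (fun g => if h' : g ∈ C then a ⟨θ, hθ⟩ ⟨g, h'⟩ else 0) := by
    funext g
    rw [dif_pos hθ]
  beta_reduce
  rw [e]
  refine ⟨fun g hg => dif_neg hg, fun m τ hτ => ?_⟩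
  have h1 : ex τ (fun g => if h' : g ∈ C then a ⟨θ, hθ⟩ ⟨g, h'⟩ else 0) = ev τ (a ⟨θ, hθ⟩) :=
    ex_ext0 τ _
  rw [h1]
  have hmem : tr τ ∈ IBr F C := ⟨m, τ, hτ, rfl⟩
  have h2 : tr (ρ ⟨tr τ, hmem⟩) = tr τ := (htr ⟨tr τ, hmem⟩).symm
  constructor
  · intro h
    have h3 := ha ⟨θ, hθ⟩ ⟨tr τ, hmem⟩
    rw [if_pos (Subtype.ext h)] at h3
    have h4 : ev (ρ ⟨tr τ, hmem⟩) (a ⟨θ, hθ⟩) = Matrix.scalar _ 1 := by rw [h3, map_one]
    have h5 := ev_eq_of_tr hF (hρ _) hτ h2 _ _ h4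
    rw [h5, map_one]
  · intro h
    have h3 := ha ⟨θ, hθ⟩ ⟨tr τ, hmem⟩
    rw [if_neg (fun h' => h (congrArg Subtype.val h'))] at h3
    have h4 : ev (ρ ⟨tr τ, hmem⟩) (a ⟨θ, hθ⟩) = Matrix.scalar _ 0 := by rw [h3, map_zero]
    have h5 := ev_eq_of_tr hF (hρ _) hτ h2 _ _ h4
    rw [h5, map_zero]

end eps

end Pool.Agent.PP.H67
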