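import Pool.Agent.Helper67_PP.Crn

/-!
SI1, module CLS: the Clifford correspondence and the formula for the `ℓ`-numbers.
-/

open scoped BigOperators

set_option linter.unusedSectionVars false

noncomputable section

namespace Pool.Agent.PP.H67

open Pool.Agent.Helper51_AWC Pool.Agent.Helper79_WRA Pool.Agent.PP

variable {F G : Type} [Field F] [Group G] [Finite G]

section

variable {ℓ : ℕ} {C X : Subgroup G} {n : ℕ} {ε : (C → F) → G → F} (E : Env ℓ C X ε)

include E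

/-- the constituents of one irreducible representation form one orbit -/
theorem Env.orbit {σ : X →* Matrix (Fin n) (Fin n) F} (hσ : IsIrr σ) {θ₀ θ : C → F}
    (hθ₀ : θ₀ ∈ IBr F C) (hθ : θ ∈ IBr F C) (h₀ : ex σ (ε θ₀) ≠ 0) (h : ex σ (ε θ) ≠ 0) :
    ∃ g : X, ac E.nC g θ₀ = θ := by
  classical
  have hfin : (IBr F C).Finite := (H20.ibf ℓ F E.good C).1
  by_contra hcon
  push Not at hcon
  set T : Finset (C → F) := hfin.toFinset.filter (fun θ' => ∃ g : X, ac E.nC g θ₀ = θ') with hT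
  have hTm : ∀ θ', θ' ∈ T ↔ θ' ∈ IBr F C ∧ ∃ g : X, ac E.nC g θ₀ = θ' := by
    intro θ'
    rw [hT, Finset.mem_filter, Set.Finite.mem_toFinset]
  have hTg : ∀ (g : X) θ', θ' ∈ T → ac E.nC g θ' ∈ T := by
    intro g θ' h1
    rw [hTm] at h1 ⊢
    obtain ⟨h2, g', rfl⟩ := h1
    exact ⟨ac_mem E.nC _ h2, g * g', by rw [ac_mul]; rfl⟩
  have hcomm : ∀ g : X, (∑ θ' ∈ T, ex σ (ε θ')) * σ g = σ g * ∑ θ' ∈ T, ex σ (ε θ') := by
    intro g
    rw [Finset.mul_sum, Finset.sum_mul]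
    symm
    apply Finset.sum_bij (fun θ' _ => ac E.nC (g : G) θ')
    · intro θ' h1
      exact hTg g θ' h1
    · intro θ' _ θ'' _ h1
      have h2 := congrArg (ac E.nC ((g : G)⁻¹)) h1
      rw [ac_mul, ac_mul, inv_mul_cancel, ac_one, ac_one] at h2
      exact h2
    · intro θ' h1
      refine ⟨ac E.nC ((g⁻¹ : X) : G) θ', hTg g⁻¹ θ' h1, ?_⟩
      rw [ac_mul]
      have : (g : G) * ((g⁻¹ : X) : G) = 1 := by simp
      rw [this, ac_one]
    · intro θ' h1
      exact E.move hσ ((hTm θ').1 h1).1 g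
  obtain ⟨w, hw⟩ := schur hσ _ hcomm
  have h1 : (∑ θ' ∈ T, ex σ (ε θ')) * ex σ (ε θ₀) = ex σ (ε θ₀) := by
    rw [Finset.sum_mul, Finset.sum_eq_single θ₀]
    · exact E.idem hσ hθ₀
    · intro θ' h1 hne
      exact E.orth hσ ((hTm θ').1 h1).1 hθ₀ hne
    · intro h1
      exact absurd ((hTm θ₀).2 ⟨hθ₀, 1, by
        have : ((1 : X) : G) = 1 := rfl
        rw [this, ac_one]⟩) h1
  have h2 : (∑ θ' ∈ T, ex σ (ε θ')) * ex σ (ε θ) = 0 := by
    rw [Finset.sum_mul]
    apply Finset.sum_eq_zero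
    intro θ' h1
    apply E.orth hσ ((hTm θ').1 h1).1 hθ
    rintro rfl
    obtain ⟨-, g, hg⟩ := (hTm θ').1 h1
    exact hcon g hg
  rw [hw, Matrix.scalar_apply, ← Matrix.smul_eq_diagonal_mul] at h1 h2
  have h3 : w ≠ 0 := by
    rintro rfl
    rw [zero_smul] at h1
    exact h₀ h1.symm
  exact h ((smul_eq_zero.1 h2).resolve_left h3)

theorem Env.exists_con {σ : X →* Matrix (Fin n) (Fin n) F} (hσ : IsIrr σ) :
    ∃ θ ∈ IBr F C, ex σ (ε θ) ≠ 0 := by
  classical
  have hfin : (IBr F C).Finite := (H20.ibf ℓ F E.good C).1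
  by_contra hcon
  push Not at hcon
  have h1 := E.sum hσ hfin.toFinset (fun θ => Set.Finite.mem_toFinset hfin)
  rw [Finset.sum_eq_zero (fun θ hθ => hcon θ ((Set.Finite.mem_toFinset hfin).1 hθ))] at h1
  have : Nonempty (Fin n) := ⟨⟨0, hσ.1⟩⟩
  exact zero_ne_one h1

open Classical in
/-- the orders of the stabilisers add up to the order of the group -/
theorem Env.card_sum {σ : X →* Matrix (Fin n) (Fin n) F} (hσ : IsIrr σ) (s : Finset (C → F))
    (hs : ∀ θ, θ ∈ s ↔ θ ∈ IBr F C) :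
    ∑ θ ∈ s.filter (fun θ => ex σ (ε θ) ≠ 0), Nat.card (X ⊓ stC E.nC θ : Subgroup G) =
      Nat.card X := by
  have hX := Fintype.ofFinite X
  obtain ⟨θ₀, hθ₀, h₀⟩ := E.exists_con hσ
  rw [Nat.card_eq_fintype_card (α := X), ← Finset.card_univ,
    Finset.card_eq_sum_card_fiberwise (f := fun g : X => ac E.nC (g : G) θ₀)
      (t := s.filter (fun θ => ex σ (ε θ) ≠ 0))]
  · apply Finset.sum_congr rfl
    intro θ hθ
    rw [Finset.mem_filter, hs] at hθ
    obtain ⟨h, hh⟩ := E.orbit hσ hθ₀ hθ.1 h₀ hθ.2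
    symm
    rw [← Fintype.card_coe, ← Nat.card_eq_fintype_card]
    apply Nat.card_congr
    have hmem : ∀ g : X, g ∈ (Finset.univ.filter (fun g : X => ac E.nC (g : G) θ₀ = θ)) ↔
        ac E.nC (g : G) θ₀ = θ := by
      intro g
      rw [Finset.mem_filter]
      exact ⟨fun h => h.2, fun h => ⟨Finset.mem_univ _, h⟩⟩
    exact
      { toFun := fun g => ⟨g.1 * (h : G)⁻¹, by
          refine ⟨X.mul_mem g.1.2 (X.inv_mem h.2), (mem_stC E.nC).2 ?_⟩
          have h1 := (hmem g.1).1 g.2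
          rw [← ac_mul]
          have h2 : ac E.nC ((h : G)⁻¹) θ = θ₀ := by
            rw [← hh, ac_mul, inv_mul_cancel, ac_one]
          rw [h2, h1]⟩
        invFun := fun k => ⟨⟨k.1 * h, X.mul_mem k.2.1 h.2⟩, by
          rw [hmem]
          show ac E.nC ((k : G) * h) θ₀ = θ
          rw [← ac_mul, hh]
          exact (mem_stC E.nC).1 k.2.2⟩
        left_inv := by
          intro g
          apply Subtype.ext
          apply Subtype.ext
          show (g.1 : G) * (h : G)⁻¹ * h = g.1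
          group
        right_inv := by
          intro k
          apply Subtype.ext
          show (k : G) * h * (h : G)⁻¹ = k
          group }
  · intro g _
    show ac E.nC (g : G) θ₀ ∈ (s.filter (fun θ => ex σ (ε θ) ≠ 0) : Set (C → F))
    rw [Finset.mem_coe, Finset.mem_filter, hs]
    refine ⟨ac_mem E.nC _ hθ₀, fun h => h₀ ?_⟩
    have h1 := E.move hσ hθ₀ g
    rw [h, zero_mul] at h1
    calc ex σ (ε θ₀) = σ g⁻¹ * (σ g * ex σ (ε θ₀)) := by
          rw [← mul_assoc, ← map_mul, inv_mul_cancel, map_one, one_mul]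
      _ = 0 := by rw [h1, mul_zero]

/-- the trace of the corner -/
theorem Env.tr_corner {σ : X →* Matrix (Fin n) (Fin n) F} {θ : C → F} {r : ℕ}
    {Q : Matrix (Fin n) (Fin r) F} {P : Matrix (Fin r) (Fin n) F}
    {τ : (X ⊓ stC E.nC θ : Subgroup G) →* Matrix (Fin r) (Fin r) F}
    (hQP : Q * P = ex σ (ε θ))
    (hτ : ∀ (y : (X ⊓ stC E.nC θ : Subgroup G)) (hy : (y : G) ∈ X), τ y = P * σ ⟨y, hy⟩ * Q) :
    tr τ = fun y : (X ⊓ stC E.nC θ : Subgroup G) =>
      actF (fun t : X => ε θ t) (tr σ) ⟨y, inf_le_left (b := stC E.nC θ) y.2⟩ := by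
  funext y
  rw [H20.actF_tr, tr, hτ y (inf_le_left (b := stC E.nC θ) y.2), Matrix.trace_mul_comm,
    ← Matrix.mul_assoc, hQP]
  rfl

/-- every irreducible representation of the stabiliser over `ρ` is a corner -/
theorem Env.surj {θ : C → F} {k m : ℕ} {ρ : C →* Matrix (Fin k) (Fin k) F} (hρ : IsIrr ρ)
    (hρθ : tr ρ = θ) {τ₀ : (X ⊓ stC E.nC θ : Subgroup G) →* Matrix (Fin m) (Fin m) F}
    (hτ₀ : IsIrr τ₀) (hov₀ : Ov ρ τ₀) :
    ∃ (n : ℕ) (σ : X →* Matrix (Fin n) (Fin n) F), IsIrr σ ∧ ex σ (ε θ) ≠ 0 ∧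
      (fun y : (X ⊓ stC E.nC θ : Subgroup G) =>
        actF (fun t : X => ε θ t) (tr σ) ⟨y, inf_le_left (b := stC E.nC θ) y.2⟩) = tr τ₀ := by
  classical
  have hF := E.good
  have hθ : θ ∈ IBr F C := ⟨k, ρ, hρ, hρθ.symm⟩
  by_contra hcon
  push Not at hcon
  -- representatives of the irreducible characters over `θ`
  have hfin : (IBr F X).Finite := (H20.ibf ℓ F hF X).1
  let I : Type := {ψ : X → F // ψ ∈ IBr F X ∧ actF (fun t : X => ε θ t) ψ ≠ 0}
  have hI : Finite I := Set.Finite.subset hfin (fun ψ h => h.1)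
  have hch : ∀ i : I, ∃ (n : ℕ) (σ : X →* Matrix (Fin n) (Fin n) F), IsIrr σ ∧ i.1 = tr σ :=
    fun i => i.2.1
  choose n σ hσ htσ using hch
  have h0 : ∀ i : I, ex (σ i) (ε θ) ≠ 0 := by
    intro i h
    apply i.2.2
    rw [htσ i]
    exact (H75.ev_zero_iff (hσ i) _).1 h
  choose r Q P τ hτ hPQ hQP hτv hval hov using fun i => E.corner (hσ i) hθ (h0 i)
  have htr := fun i => E.tr_corner (hQP i) (fun y hy => (hτv i y hy).1)
  -- the new representation is different from all of them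
  have hnew : ∀ i : I, tr (τ i) ≠ tr τ₀ := by
    intro i heq
    apply hcon (n i) (σ i) (hσ i) (h0 i)
    rw [← heq, htr i]
  have hinj : ∀ i j : I, tr (τ i) = tr (τ j) → i = j := by
    intro i j heq
    by_contra hne
    have hne' : tr (σ i) ≠ tr (σ j) := by
      rw [← htσ i, ← htσ j]
      exact fun h => hne (Subtype.ext h)
    obtain ⟨a, ha, ha'⟩ := H75.sep H20.ibj hF (hσ i) (hσ j) hne'
    have e1 : ex (τ i) (fun g => if h : g ∈ X then a ⟨g, h⟩ else 0) = 1 := by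
      rw [hval, ex_ext0, ha, Matrix.mul_one, hPQ]
    have e2 : ex (τ j) (fun g => if h : g ∈ X then a ⟨g, h⟩ else 0) = 0 := by
      rw [hval, ex_ext0, ha', Matrix.mul_zero, Matrix.zero_mul]
    have e3 := ev_eq_of_tr hF (hτ i) (hτ j) heq _ 1 (by rw [map_one]; exact e1)
    have e4 : (1 : Matrix (Fin (r j)) (Fin (r j)) F) = 0 := by
      rw [map_one] at e3
      rw [← e3]
      exact e2
    have : Nonempty (Fin (r j)) := ⟨⟨0, (hτ j).1⟩⟩
    exact one_ne_zero e4
  -- the separating element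
  let N : Option I → ℕ := fun b => b.elim m r
  let S : ∀ b : Option I, (X ⊓ stC E.nC θ : Subgroup G) →* Matrix (Fin (N b)) (Fin (N b)) F :=
    fun b => match b with
      | none => τ₀
      | some i => τ i
  let B : ∀ b : Option I, Matrix (Fin (N b)) (Fin (N b)) F :=
    fun b => match b with
      | none => (1 : Matrix (Fin m) (Fin m) F)
      | some i => (0 : Matrix (Fin (r i)) (Fin (r i)) F)
  have hSirr : ∀ b, IsIrr (S b) := by
    intro b
    cases b with
    | none => exact hτ₀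
    | some i => exact hτ i
  have hSinj : Function.Injective (fun b => tr (S b)) := by
    intro b b' hbb
    cases b with
    | none =>
      cases b' with
      | none => rfl
      | some j => exact absurd hbb.symm (hnew j)
    | some i =>
      cases b' with
      | none => exact absurd hbb (hnew i)
      | some j => exact congrArg some (hinj i j hbb)
  obtain ⟨a, ha⟩ := H20.ibj ℓ F hF (X ⊓ stC E.nC θ : Subgroup G) (Option I) N S hSirr hSinj B
  have ha0 : ev τ₀ a = 1 := ha none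
  have hai : ∀ i, ev (τ i) a = 0 := fun i => ha (some i)
  -- `b = ε a ε`
  set a' : G → F := fun g => if h : g ∈ (X ⊓ stC E.nC θ : Subgroup G) then a ⟨g, h⟩ else 0
    with ha'
  have hspa : Sp (X ⊓ stC E.nC θ) a' := fun g hg => dif_neg hg
  obtain ⟨hε1, hε2⟩ := E.eps θ hθ
  have hCY : C ≤ X ⊓ stC E.nC θ := by
    refine le_inf E.le ?_
    intro c hc
    rw [mem_stC]
    obtain ⟨k, ρ, hρ, rfl⟩ := hθ
    funext x
    rw [ac, tr, tr]
    have e : crep E.nC c⁻¹ x = (⟨c, hc⟩ : C)⁻¹ * x * ⟨c, hc⟩ := by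
      apply Subtype.ext
      show c⁻¹ * (x : G) * c⁻¹⁻¹ = c⁻¹ * x * c
      rw [inv_inv]
    rw [e, map_mul, map_mul, Matrix.trace_mul_comm, ← Matrix.mul_assoc, ← map_mul,
      mul_inv_cancel, map_one, Matrix.one_mul]
  have hεY : Sp (X ⊓ stC E.nC θ) (ε θ) := hε1.mono hCY
  set b : G → F := mulF (ε θ) (mulF a' (ε θ)) with hb
  have hspb : Sp (X ⊓ stC E.nC θ) b := sp_mulF hεY (sp_mulF hspa hεY)
  have hspbX : Sp X b := hspb.mono inf_le_left
  have hbσ : ∀ (k : ℕ) (σ' : X →* Matrix (Fin k) (Fin k) F), IsIrr σ' →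
      ev σ' (fun x : X => b x) = 0 := by
    intro k σ' hσ'
    have e1 : ∀ {k : ℕ} (σ' : X →* Matrix (Fin k) (Fin k) F),
        ex σ' b = ex σ' (ε θ) * (ex σ' a' * ex σ' (ε θ)) := by
      intro k σ'
      rw [hb, ex_mulF_left σ' (hε1.mono E.le), ex_mulF_right σ' (hε1.mono E.le)]
    show ex σ' b = 0
    by_cases h : ex σ' (ε θ) = 0
    · rw [e1, h, zero_mul]
    · have h1 : actF (fun t : X => ε θ t) (tr σ') ≠ 0 := fun h' =>
        h ((H75.ev_zero_iff hσ' _).2 h')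
      let i : I := ⟨tr σ', ⟨k, σ', hσ', rfl⟩, h1⟩
      have h2 : tr σ' = tr (σ i) := htσ i
      have h3 : ex (σ i) b = Matrix.scalar (Fin (n i)) 0 := by
        rw [map_zero, e1, ← hQP i]
        have h4 : ex (τ i) a' = 0 := by
          rw [ha', ex_ext0]
          exact hai i
        rw [hval] at h4
        calc Q i * P i * (ex (σ i) a' * (Q i * P i))
            = Q i * (P i * ex (σ i) a' * Q i) * P i := by simp only [Matrix.mul_assoc]
          _ = 0 := by rw [h4, Matrix.mul_zero, Matrix.zero_mul]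
      have h4 := ev_eq_of_tr hF (hσ i) hσ' h2.symm _ 0 h3
      rw [map_zero] at h4
      exact h4
  obtain ⟨j, hj⟩ := H20.ibn ℓ F hF X (fun x : X => b x) hbσ
  have h1 : (mulF b)^[j] b = 0 := by
    funext g
    by_cases hg : g ∈ X
    · have := iterate_sub (b := b) hspbX j ⟨g, hg⟩
      rw [hj] at this
      exact this
    · exact sp_iterate hspbX hspbX j g hg
  have h2 := ex_iterate τ₀ hspb j (b := b)
  rw [h1, ex_zero] at h2
  have h3 : ex τ₀ (ε θ) = 1 := by
    have h4 : ex τ₀ (ε θ - dl F (1 : G)) = 0 := by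
      apply hov₀
      · intro g hg
        rw [Pi.sub_apply, hε1 g hg, dl, if_neg, sub_zero]
        rintro rfl
        exact hg C.one_mem
      · rw [ex_sub, (hε2 k ρ hρ).1 hρθ, ex_dl_one, sub_self]
    rw [ex_sub, ex_dl_one] at h4
    exact sub_eq_zero.1 h4
  have h4 : ex τ₀ b = 1 := by
    rw [hb, ex_mulF_left τ₀ hεY, ex_mulF_left τ₀ hspa, h3, mul_one, one_mul, ha', ex_ext0]
    exact ha0
  rw [h4, one_pow, mul_one] at h2
  have : Nonempty (Fin m) := ⟨⟨0, hτ₀.1⟩⟩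
  exact one_ne_zero h2.symm

/-- the Clifford correspondence -/
theorem Env.corr {θ : C → F} (hθ : θ ∈ IBr F C) {e : G → F} (he : IsCl e) :
    {ψ : X → F | ψ ∈ IBr F X ∧ actF (fun t : X => ε θ t) ψ ≠ 0 ∧
      actF (fun t : X => e t) ψ = ψ}.ncard = (LT (X ⊓ stC E.nC θ) θ e).ncard := by
  classical
  have hF := E.good
  have heX : IsCl (fun t : X => e t) := fun x y => he x y
  have heY : IsCl (fun t : (X ⊓ stC E.nC θ : Subgroup G) => e t) := fun x y => he x y
  -- the scalar of `e`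
  have hsc : ∀ {n : ℕ} {σ : X →* Matrix (Fin n) (Fin n) F}, IsIrr σ → ∀ {r : ℕ}
      {Q : Matrix (Fin n) (Fin r) F} {P : Matrix (Fin r) (Fin n) F}
      {τ : (X ⊓ stC E.nC θ : Subgroup G) →* Matrix (Fin r) (Fin r) F}, P * Q = 1 →
      (∀ a : G → F, ex τ a = P * ex σ a * Q) → ∀ w : F, ex σ e = Matrix.scalar (Fin n) w →
      ex τ e = Matrix.scalar (Fin r) w := by
    intro n σ hσ r Q P τ hPQ hval w hw
    rw [hval, hw, Matrix.scalar_apply, ← Matrix.smul_one_eq_diagonal, Matrix.mul_smul,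
      Matrix.mul_one, Matrix.smul_mul, hPQ, Matrix.scalar_apply, Matrix.smul_one_eq_diagonal]
  apply Set.ncard_congr (fun ψ _ => fun y : (X ⊓ stC E.nC θ : Subgroup G) =>
    actF (fun t : X => ε θ t) ψ ⟨y, inf_le_left (b := stC E.nC θ) y.2⟩)
  · rintro ψ ⟨⟨n, σ, hσ, rfl⟩, h0, h1⟩
    have h0' : ex σ (ε θ) ≠ 0 := fun h => h0 ((H75.ev_zero_iff hσ _).1 h)
    obtain ⟨r, Q, P, τ, hτ, hPQ, hQP, hτv, hval, hov⟩ := E.corner hσ hθ h0'
    have htr := E.tr_corner hQP (fun y hy => (hτv y hy).1)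
    rw [← htr]
    obtain ⟨k, ρ, hρ, hρθ⟩ := hθ
    refine ⟨⟨k, r, ρ, τ, hρ, hτ, hρθ.symm, rfl, hov k ρ hρ hρθ.symm⟩, ?_⟩
    obtain ⟨w, hw1, hw2, -⟩ := H20.eig F X n σ hσ _ heX
    have hw : w = 1 := by
      rw [h1] at hw2
      have h3 := H75.tr_ne_zero hσ
      have h4 : (1 - w) • tr σ = 0 := by rw [sub_smul, one_smul, ← hw2, sub_self]
      rcases smul_eq_zero.1 h4 with h5 | h5
      · exact (sub_eq_zero.1 h5).symm
      · exact absurd h5 h3
    apply H75.actF_one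
    have h5 := hsc hσ hPQ hval w hw1
    rw [hw, map_one] at h5
    exact h5
  · rintro ψ ψ' ⟨⟨n, σ, hσ, rfl⟩, h0, h1⟩ ⟨⟨n', σ', hσ', rfl⟩, h0', h1'⟩ heq
    by_contra hne
    have k0 : ex σ (ε θ) ≠ 0 := fun h => h0 ((H75.ev_zero_iff hσ _).1 h)
    have k0' : ex σ' (ε θ) ≠ 0 := fun h => h0' ((H75.ev_zero_iff hσ' _).1 h)
    obtain ⟨r, Q, P, τ, hτ, hPQ, hQP, hτv, hval, hov⟩ := E.corner hσ hθ k0
    obtain ⟨r', Q', P', τ', hτ', hPQ', hQP', hτv', hval', hov'⟩ := E.corner hσ' hθ k0'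
    have htr := E.tr_corner hQP (fun y hy => (hτv y hy).1)
    have htr' := E.tr_corner hQP' (fun y hy => (hτv' y hy).1)
    have hteq : tr τ = tr τ' := by rw [htr, htr']; exact heq
    obtain ⟨a, ha, ha'⟩ := H75.sep H20.ibj hF hσ hσ' hne
    have e1 : ex τ (fun g => if h : g ∈ X then a ⟨g, h⟩ else 0) = 1 := by
      rw [hval, ex_ext0, ha, Matrix.mul_one, hPQ]
    have e2 : ex τ' (fun g => if h : g ∈ X then a ⟨g, h⟩ else 0) = 0 := by
      rw [hval', ex_ext0, ha', Matrix.mul_zero, Matrix.zero_mul]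
    have e3 := ev_eq_of_tr hF hτ hτ' hteq _ 1 (by rw [map_one]; exact e1)
    have e4 : (1 : Matrix (Fin r') (Fin r') F) = 0 := by
      rw [map_one] at e3
      rw [← e3]
      exact e2
    have : Nonempty (Fin r') := ⟨⟨0, hτ'.1⟩⟩
    exact one_ne_zero e4
  · rintro φ ⟨⟨k, m, ρ, τ₀, hρ, hτ₀, hρθ, rfl, hov₀⟩, he0⟩
    obtain ⟨n, σ, hσ, h0, heq⟩ := E.surj hρ hρθ hτ₀ hov₀
    refine ⟨tr σ, ⟨⟨n, σ, hσ, rfl⟩, fun h => h0 ((H75.ev_zero_iff hσ _).2 h), ?_⟩, heq⟩
    obtain ⟨r, Q, P, τ, hτ, hPQ, hQP, hτv, hval, hov⟩ := E.corner hσ hθ h0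
    have htr := E.tr_corner hQP (fun y hy => (hτv y hy).1)
    obtain ⟨w, hw1, hw2, -⟩ := H20.eig F X n σ hσ _ heX
    have h5 := hsc hσ hPQ hval w hw1
    have h6 := ev_eq_of_tr hF hτ hτ₀ (htr.trans heq) _ w h5
    have h7 : actF (fun t : (X ⊓ stC E.nC θ : Subgroup G) => e t) (tr τ₀) = w • tr τ₀ := by
      funext x
      rw [H20.actF_tr, h6, Matrix.scalar_apply, ← Matrix.smul_eq_diagonal_mul,
        Matrix.trace_smul]
      rfl
    have h8 : w = 1 := by
      rw [he0] at h7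
      have h3 := H75.tr_ne_zero hτ₀
      have h4 : (1 - w) • tr τ₀ = 0 := by rw [sub_smul, one_smul, ← h7, sub_self]
      rcases smul_eq_zero.1 h4 with h5 | h5
      · exact (sub_eq_zero.1 h5).symm
      · exact absurd h5 h3
    rw [hw2, h8, one_smul]

end

end Pool.Agent.PP.H67
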