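import Pool.Agent.Helper67_PP.Cls

/-!
SI1: `ClsStmt` and `ClrStmt`.
-/

open scoped BigOperators

set_option linter.unusedSectionVars false

noncomputable section

namespace Pool.Agent.PP.H67

open Pool.Agent.Helper51_AWC Pool.Agent.Helper79_WRA Pool.Agent.PP

theorem cls : ClsStmt := by
  classical
  intro ℓ F _ hF G _ _ C hC X hCX e he
  obtain ⟨ε, hε⟩ := exists_eps F C hF
  have E : Env ℓ C X ε := ⟨hF, hC, hCX, hε⟩
  have hfin : (IBr F C).Finite := (H20.ibf ℓ F hF C).1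
  have hfinX : (IBr F X).Finite := (H20.ibf ℓ F hF X).1
  rw [finsum_mem_eq_finite_toFinset_sum _ hfin]
  have hA : {f : X → F | f ∈ IBr F X ∧ actF (fun t : X => e t) f = f}.Finite :=
    hfinX.subset (fun f h => h.1)
  have h1 : ∀ θ ∈ hfin.toFinset,
      (Nat.card (X ⊓ stC hC θ : Subgroup G) : ℤ) * ((LT (X ⊓ stC hC θ) θ e).ncard : ℤ) =
        ∑ ψ ∈ hA.toFinset, if actF (fun t : X => ε θ t) ψ ≠ 0 then
          (Nat.card (X ⊓ stC hC θ : Subgroup G) : ℤ) else 0 := by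
    intro θ hθ
    rw [← E.corr ((Set.Finite.mem_toFinset hfin).1 hθ) he, ← Finset.sum_filter,
      Finset.sum_const, nsmul_eq_mul, mul_comm]
    congr 2
    have h2 : {ψ : X → F | ψ ∈ IBr F X ∧ actF (fun t : X => ε θ t) ψ ≠ 0 ∧
        actF (fun t : X => e t) ψ = ψ} =
        ((hA.toFinset.filter (fun ψ => actF (fun t : X => ε θ t) ψ ≠ 0) : Finset (X → F)) :
          Set (X → F)) := by
      ext ψ
      rw [Finset.coe_filter]
      simp only [Set.mem_setOf_eq, Set.Finite.mem_toFinset]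
      tauto
    rw [h2, Set.ncard_coe_finset]
  rw [Finset.sum_congr rfl h1, Finset.sum_comm]
  have h2 : ∀ ψ ∈ hA.toFinset, (∑ θ ∈ hfin.toFinset,
      if actF (fun t : X => ε θ t) ψ ≠ 0 then
        (Nat.card (X ⊓ stC hC θ : Subgroup G) : ℤ) else 0) = (Nat.card X : ℤ) := by
    intro ψ hψ
    rw [Set.Finite.mem_toFinset] at hψ
    obtain ⟨⟨n, σ, hσ, rfl⟩, -⟩ := hψ
    have h3 := E.card_sum hσ hfin.toFinset (fun θ => Set.Finite.mem_toFinset hfin)
    rw [← h3, ← Finset.sum_filter]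
    push_cast
    apply Finset.sum_congr _ (fun _ _ => rfl)
    ext θ
    rw [Finset.mem_filter, Finset.mem_filter]
    refine and_congr_right fun _ => not_congr ?_
    exact (H75.ev_zero_iff hσ _).symm
  rw [Finset.sum_congr rfl h2, Finset.sum_const, nsmul_eq_mul, mul_comm]
  congr 2
  rw [lnum, ← Set.ncard_coe_finset]
  congr 1
  ext ψ
  rw [Set.Finite.coe_toFinset]

theorem clr : ClrStmt := by
  classical
  intro ℓ F _ hF G _ _ C hC n m ρ τ hρ hτ hov
  obtain ⟨ε, hε⟩ := exists_eps F C hF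
  have E : Env ℓ C (⊤ : Subgroup G) ε := ⟨hF, hC, le_top, hε⟩
  have hle : ((⊤ : Subgroup G) ⊓ stC E.nC (tr ρ)) ≤ stC hC (tr ρ) := inf_le_right
  set τ₀ : ((⊤ : Subgroup G) ⊓ stC E.nC (tr ρ) : Subgroup G) →* Matrix (Fin m) (Fin m) F :=
    τ.comp (Subgroup.inclusion hle) with hτ₀
  have hsurj : Function.Surjective (Subgroup.inclusion hle) := by
    rintro ⟨g, hg⟩
    exact ⟨⟨g, Subgroup.mem_inf.2 ⟨Subgroup.mem_top g, hg⟩⟩, rfl⟩
  have hτ₀i : IsIrr τ₀ := irr_comp hτ _ hsurj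
  have hbij : ∀ a : G → F, ex τ₀ a = ex τ a := by
    intro a
    have := Fintype.ofFinite ((⊤ : Subgroup G) ⊓ stC E.nC (tr ρ) : Subgroup G)
    have := Fintype.ofFinite (stC hC (tr ρ))
    rw [ex_eq, ex_eq]
    apply Fintype.sum_bijective (Subgroup.inclusion hle)
    · exact ⟨Subgroup.inclusion_injective hle, hsurj⟩
    · intro x; rfl
  have hov₀ : Ov ρ τ₀ := by
    intro a ha h0
    rw [hbij]
    exact hov a ha h0
  obtain ⟨k, σ, hσ, h0, heq⟩ := E.surj hρ rfl hτ₀i hov₀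
  obtain ⟨r, Q, P, τ₁, hτ₁, hPQ, hQP, hτv, hval, -⟩ := E.corner hσ ⟨n, ρ, hρ, rfl⟩ h0
  have htr := E.tr_corner hQP (fun y hy => (hτv y hy).1)
  obtain ⟨A, B, -, hAB, hBA, hA⟩ := H20.ibc ℓ F hF _ r m τ₁ τ₀ hτ₁ hτ₀i (htr.trans heq)
  have hvalA : ∀ a : G → F, ex τ₀ a = A * P * ex σ a * (Q * B) := by
    intro a
    have h1 : A * ex τ₁ a = ex τ₀ a * A := ev_conj hA _
    calc ex τ₀ a = ex τ₀ a * (A * B) := by rw [hAB, mul_one]
      _ = (ex τ₀ a * A) * B := by rw [Matrix.mul_assoc]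
      _ = A * (P * ex σ a * Q) * B := by rw [← h1, hval]
      _ = A * P * ex σ a * (Q * B) := by simp only [Matrix.mul_assoc]
  have htop : Function.Surjective (Subgroup.topEquiv (G := G)).symm.toMonoidHom :=
    (Subgroup.topEquiv (G := G)).symm.surjective
  refine ⟨k, σ.comp (Subgroup.topEquiv (G := G)).symm.toMonoidHom, A * P, Q * B,
    irr_comp hσ _ htop, ?_, ?_, ?_, ?_⟩
  · calc A * P * (Q * B) = A * (P * Q) * B := by simp only [Matrix.mul_assoc]
      _ = 1 := by rw [hPQ, Matrix.mul_one, hAB]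
  · intro g
    have h1 : A * τ₁ ⟨g, Subgroup.mem_top _, g.2⟩ = τ₀ ⟨g, Subgroup.mem_top _, g.2⟩ * A := hA _
    have h2 := (hτv ⟨g, Subgroup.mem_top _, g.2⟩ (Subgroup.mem_top _)).1
    have h3 : τ₀ ⟨g, Subgroup.mem_top _, g.2⟩ = τ g := rfl
    rw [h2, h3] at h1
    show A * P * σ ⟨g, Subgroup.mem_top _⟩ * (Q * B) = τ g
    calc A * P * σ ⟨g, Subgroup.mem_top _⟩ * (Q * B)
        = A * (P * σ ⟨g, Subgroup.mem_top _⟩ * Q) * B := by simp only [Matrix.mul_assoc]
      _ = τ g := by rw [h1, Matrix.mul_assoc, hAB, Matrix.mul_one]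
  · intro g
    have h2 := (hτv ⟨g, Subgroup.mem_top _, g.2⟩ (Subgroup.mem_top _)).2
    show Q * B * (A * P) * σ ⟨g, Subgroup.mem_top _⟩ =
      σ ⟨g, Subgroup.mem_top _⟩ * (Q * B * (A * P))
    have h3 : Q * B * (A * P) = Q * P := by
      calc Q * B * (A * P) = Q * (B * A) * P := by simp only [Matrix.mul_assoc]
        _ = Q * P := by rw [hBA, Matrix.mul_one]
    rw [h3]
    exact h2.symm
  · intro e w he hw
    have h1 : ex σ e = Matrix.scalar (Fin k) w := by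
      rw [← hw]
      have := Fintype.ofFinite G
      have := Fintype.ofFinite (⊤ : Subgroup G)
      rw [ex_eq, ev, finsum_eq_sum_of_fintype]
      apply Fintype.sum_bijective (fun x : (⊤ : Subgroup G) => (x : G))
      · exact ⟨Subtype.val_injective, fun g => ⟨⟨g, Subgroup.mem_top g⟩, rfl⟩⟩
      · intro x; rfl
    rw [← hbij, hvalA, h1, Matrix.scalar_apply, ← Matrix.smul_one_eq_diagonal, Matrix.mul_smul,
      Matrix.mul_one, Matrix.smul_mul]
    have h2 : A * P * (Q * B) = 1 := by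
      calc A * P * (Q * B) = A * (P * Q) * B := by simp only [Matrix.mul_assoc]
        _ = 1 := by rw [hPQ, Matrix.mul_one, hAB]
    rw [h2, Matrix.scalar_apply, Matrix.smul_one_eq_diagonal]

end Pool.Agent.PP.H67
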