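import Pool.Agent.Helper67_PP.Clf
import Pool.Agent.Helper75_PP.Corner

/-!
SI1, module CLS: the corner of an irreducible representation at the `θ`-isotypic part.
-/

open scoped BigOperators

set_option linter.unusedSectionVars false

noncomputable section

namespace Pool.Agent.PP.H67

open Pool.Agent.Helper51_AWC Pool.Agent.Helper79_WRA Pool.Agent.PP

variable {F G : Type} [Field F] [Group G] [Finite G]

section action

variable {C X : Subgroup G} (hC : C.Normal)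

/-- the conjugate character `g θ` -/
def ac (g : G) (θ : C → F) : C → F := fun c => θ (crep hC g⁻¹ c)

theorem ac_mem (g : G) {θ : C → F} (h : θ ∈ IBr F C) : ac hC g θ ∈ IBr F C := by
  obtain ⟨n, ρ, hρ, rfl⟩ := h
  exact ⟨n, ρ.comp (crep hC g⁻¹), irr_comp hρ _ (crep_surj hC _), rfl⟩

theorem ac_one (θ : C → F) : ac hC 1 θ = θ := by
  funext c
  rw [ac]
  congr 1
  apply Subtype.ext
  show (1 : G)⁻¹ * c * (1 : G)⁻¹⁻¹ = c
  group

theorem ac_mul (g h : G) (θ : C → F) : ac hC g (ac hC h θ) = ac hC (g * h) θ := by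
  funext c
  rw [ac, ac, ac]
  congr 1
  apply Subtype.ext
  show h⁻¹ * (g⁻¹ * c * g⁻¹⁻¹) * h⁻¹⁻¹ = (g * h)⁻¹ * c * (g * h)⁻¹⁻¹
  group

theorem ac_tr {n : ℕ} (g : G) (ρ : C →* Matrix (Fin n) (Fin n) F) (θ : C → F) :
    tr (ρ.comp (crep hC g)) = θ ↔ tr ρ = ac hC g θ := by
  constructor
  · rintro rfl
    funext c
    rw [ac]
    show tr ρ c = tr ρ (crep hC g (crep hC g⁻¹ c))
    congr 1
    apply Subtype.ext
    show (c : G) = g * (g⁻¹ * c * g⁻¹⁻¹) * g⁻¹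
    group
  · intro h
    funext c
    show tr ρ (crep hC g c) = θ c
    rw [h, ac]
    congr 1
    apply Subtype.ext
    show g⁻¹ * (g * (c : G) * g⁻¹) * g⁻¹⁻¹ = c
    group

theorem mem_stC {g : G} {θ : C → F} : g ∈ stC hC θ ↔ ac hC g θ = θ := by
  constructor
  · intro h
    funext c
    rw [ac]
    have h1 := h (crep hC g⁻¹ c)
    rw [← h1]
    congr 1
    apply Subtype.ext
    show g * (g⁻¹ * (c : G) * g⁻¹⁻¹) * g⁻¹ = c
    group
  · intro h c
    have h1 := congrFun h ⟨g * c * g⁻¹, hC.conj_mem c c.2 g⟩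
    rw [← h1, ac]
    congr 1
    apply Subtype.ext
    show g⁻¹ * (g * (c : G) * g⁻¹) * g⁻¹⁻¹ = c
    group

end action

theorem ex_dl_one {X : Subgroup G} {n : ℕ} (σ : X →* Matrix (Fin n) (Fin n) F) :
    ex σ (dl F (1 : G)) = 1 := by
  have e : (fun x : X => dl F (1 : G) x) = dl F (1 : X) := by
    funext x
    rw [dl, dl]
    by_cases h : x = 1
    · rw [if_pos h, if_pos (by rw [h]; rfl)]
    · rw [if_neg h, if_neg]
      intro h'
      exact h (Subtype.ext h')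
  rw [ex, e, ev_dl, map_one]

section corner

variable {C X : Subgroup G} {n : ℕ} {ε : (C → F) → G → F} {σ : X →* Matrix (Fin n) (Fin n) F}

/-- everything needed from the environment -/
structure Env (ℓ : ℕ) (C X : Subgroup G) (ε : (C → F) → G → F) : Prop where
  good : GoodF ℓ F
  nC : C.Normal
  le : C ≤ X
  eps : IsEps F C ε

variable {ℓ : ℕ} (E : Env ℓ C X ε)

include E

theorem Env.idem (hσ : IsIrr σ) {θ : C → F} (hθ : θ ∈ IBr F C) :
    ex σ (ε θ) * ex σ (ε θ) = ex σ (ε θ) := by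
  obtain ⟨h1, h2⟩ := E.eps θ hθ
  rw [← ex_mulF_left σ (h1.mono E.le)]
  apply Rd.eq E.good E.nC E.le hσ (sp_mulF h1 h1) h1
  intro k ρ hρ
  rw [ex_mulF_left ρ h1]
  by_cases h : tr ρ = θ
  · rw [(h2 k ρ hρ).1 h, one_mul]
  · rw [(h2 k ρ hρ).2 h, zero_mul]

theorem Env.orth (hσ : IsIrr σ) {θ θ' : C → F} (hθ : θ ∈ IBr F C) (hθ' : θ' ∈ IBr F C)
    (hne : θ ≠ θ') : ex σ (ε θ) * ex σ (ε θ') = 0 := by
  obtain ⟨h1, h2⟩ := E.eps θ hθ
  obtain ⟨h3, h4⟩ := E.eps θ' hθ'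
  rw [← ex_mulF_left σ (h1.mono E.le)]
  have h5 : Rd C (mulF (ε θ) (ε θ')) := by
    refine ⟨sp_mulF h1 h3, fun k ρ hρ => ?_⟩
    rw [ex_mulF_left ρ h1]
    by_cases h : tr ρ = θ
    · rw [(h4 k ρ hρ).2 (fun h' => hne (h.symm.trans h')), mul_zero]
    · rw [(h2 k ρ hρ).2 h, zero_mul]
  exact h5.zero E.good E.nC E.le hσ

theorem Env.move (hσ : IsIrr σ) {θ : C → F} (hθ : θ ∈ IBr F C) (g : X) :
    σ g * ex σ (ε θ) = ex σ (ε (ac E.nC g θ)) * σ g := by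
  obtain ⟨h1, h2⟩ := E.eps θ hθ
  obtain ⟨h3, h4⟩ := E.eps _ (ac_mem E.nC g hθ)
  rw [← ex_comm]
  congr 1
  apply Rd.eq E.good E.nC E.le hσ (cja_sp E.nC _ h1) h3
  intro k ρ hρ
  rw [← ex_crep ρ E.nC]
  have hi := irr_comp hρ _ (crep_surj E.nC (g : G))
  by_cases h : tr ρ = ac E.nC g θ
  · rw [(h4 k ρ hρ).1 h, (h2 k _ hi).1 ((ac_tr E.nC g ρ θ).2 h)]
  · rw [(h4 k ρ hρ).2 h, (h2 k _ hi).2 (fun h' => h ((ac_tr E.nC g ρ θ).1 h'))]

theorem Env.sum (hσ : IsIrr σ) (s : Finset (C → F)) (hs : ∀ θ, θ ∈ s ↔ θ ∈ IBr F C) :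
    ∑ θ ∈ s, ex σ (ε θ) = 1 := by
  have h0 : ex σ (dl F (1 : G)) = 1 := ex_dl_one σ
  have hd : Sp C (dl F (1 : G)) := by
    intro g hg
    rw [dl, if_neg]
    rintro rfl
    exact hg C.one_mem
  rw [← ex_sum, ← h0]
  apply Rd.eq E.good E.nC E.le hσ _ hd
  · intro k ρ hρ
    have e : ex ρ (dl F (1 : G)) = 1 := ex_dl_one ρ
    rw [e, ex_sum, Finset.sum_eq_single (tr ρ)]
    · exact ((E.eps _ ⟨k, ρ, hρ, rfl⟩).2 k ρ hρ).1 rfl
    · intro θ hθ hne
      exact ((E.eps θ ((hs θ).1 hθ)).2 k ρ hρ).2 (Ne.symm hne)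
    · intro h
      exact absurd ((hs _).2 ⟨k, ρ, hρ, rfl⟩) h
  · intro g hg
    rw [Finset.sum_apply]
    exact Finset.sum_eq_zero fun θ hθ => (E.eps θ ((hs θ).1 hθ)).1 g hg

/-- the corner: a representation of the stabiliser -/
theorem Env.corner (hσ : IsIrr σ) {θ : C → F} (hθ : θ ∈ IBr F C) (h0 : ex σ (ε θ) ≠ 0) :
    ∃ (r : ℕ) (Q : Matrix (Fin n) (Fin r) F) (P : Matrix (Fin r) (Fin n) F)
      (τ : (X ⊓ stC E.nC θ : Subgroup G) →* Matrix (Fin r) (Fin r) F), IsIrr τ ∧ P * Q = 1 ∧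
      Q * P = ex σ (ε θ) ∧ (∀ (y : (X ⊓ stC E.nC θ : Subgroup G)) (hy : (y : G) ∈ X),
        τ y = P * σ ⟨y, hy⟩ * Q ∧ σ ⟨y, hy⟩ * (Q * P) = Q * P * σ ⟨y, hy⟩) ∧
      (∀ a : G → F, ex τ a = P * ex σ a * Q) ∧
      ∀ (k : ℕ) (ρ : C →* Matrix (Fin k) (Fin k) F), IsIrr ρ → tr ρ = θ → Ov ρ τ := by
  obtain ⟨r, Q, P, hr, hPQ, hQP⟩ := H75.idem_factor (ex σ (ε θ)) (E.idem hσ hθ) h0
  have hst : ∀ (y : X), (y : G) ∈ stC E.nC θ → σ y * (Q * P) = Q * P * σ y := by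
    intro y hy
    rw [hQP, E.move hσ hθ y, (mem_stC E.nC).1 hy]
  have hoff : ∀ (y : X), (y : G) ∉ stC E.nC θ → P * σ y * Q = 0 := by
    intro y hy
    have h1 : Q * P * σ y * (Q * P) = 0 := by
      rw [hQP, mul_assoc, E.move hσ hθ y, ← mul_assoc,
        E.orth hσ hθ (ac_mem E.nC _ hθ), zero_mul]
      intro h
      exact hy ((mem_stC E.nC).2 h.symm)
    calc P * σ y * Q = (P * Q) * P * σ y * (Q * (P * Q)) := by
          rw [hPQ, Matrix.one_mul, Matrix.mul_one]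
      _ = P * (Q * P * σ y * (Q * P)) * Q := by simp only [Matrix.mul_assoc]
      _ = 0 := by rw [h1, Matrix.mul_zero, Matrix.zero_mul]
  have hle : (X ⊓ stC E.nC θ : Subgroup G) ≤ X := inf_le_left
  let τ : (X ⊓ stC E.nC θ : Subgroup G) →* Matrix (Fin r) (Fin r) F :=
    { toFun := fun y => P * σ ⟨y, hle y.2⟩ * Q
      map_one' := by
        have e : (⟨((1 : (X ⊓ stC E.nC θ : Subgroup G)) : G), hle (one_mem _)⟩ : X) = 1 := rfl
        rw [e, map_one, Matrix.mul_one, hPQ]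
      map_mul' := by
        intro y z
        have e : (⟨((y * z : (X ⊓ stC E.nC θ : Subgroup G)) : G), hle (y * z).2⟩ : X) =
          ⟨y, hle y.2⟩ * ⟨z, hle z.2⟩ := rfl
        rw [e, map_mul]
        have h1 := hst ⟨z, hle z.2⟩ z.2.2
        calc P * (σ ⟨y, hle y.2⟩ * σ ⟨z, hle z.2⟩) * Q
            = P * (σ ⟨y, hle y.2⟩ * σ ⟨z, hle z.2⟩) * (Q * (P * Q)) := by
              rw [hPQ, Matrix.mul_one]
          _ = P * σ ⟨y, hle y.2⟩ * (σ ⟨z, hle z.2⟩ * (Q * P)) * Q := by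
              simp only [Matrix.mul_assoc]
          _ = P * σ ⟨y, hle y.2⟩ * (Q * P * σ ⟨z, hle z.2⟩) * Q := by rw [h1]
          _ = P * σ ⟨y, hle y.2⟩ * Q * (P * σ ⟨z, hle z.2⟩ * Q) := by
              simp only [Matrix.mul_assoc] }
  have hval : ∀ a : G → F, ex τ a = P * ex σ a * Q := by
    intro a
    have := Fintype.ofFinite X
    have := Fintype.ofFinite (X ⊓ stC E.nC θ : Subgroup G)
    rw [ex_eq, ex_eq, Matrix.mul_sum, Matrix.sum_mul]
    apply Fintype.sum_of_injective (fun y : (X ⊓ stC E.nC θ : Subgroup G) => (⟨y, hle y.2⟩ : X))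
    · intro y z hyz
      exact Subtype.ext (congrArg (fun z : X => (z : G)) hyz)
    · intro x hx
      rw [Matrix.mul_smul, Matrix.smul_mul, hoff, smul_zero]
      intro h
      exact hx ⟨⟨x, x.2, h⟩, rfl⟩
    · intro y
      rw [Matrix.mul_smul, Matrix.smul_mul]
      rfl
  refine ⟨r, Q, P, τ, ⟨hr, ?_⟩, hPQ, hQP, fun y hy => ⟨rfl, hst ⟨y, hy⟩ y.2.2⟩, hval, ?_⟩
  · rw [eq_top_iff]
    rintro B -
    obtain ⟨z, hz⟩ := (H20.lift_surjective σ).2 hσ.2 (Q * B * P)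
    obtain ⟨a, rfl⟩ := H20.toMA_surjective z
    rw [H20.lift_toMA] at hz
    have h1 := hval (fun g => open Classical in if h : g ∈ X then a ⟨g, h⟩ else 0)
    rw [ex_ext0, hz] at h1
    have h2 : P * (Q * B * P) * Q = B := by
      calc P * (Q * B * P) * Q = (P * Q) * B * (P * Q) := by simp only [Matrix.mul_assoc]
        _ = B := by rw [hPQ, Matrix.one_mul, Matrix.mul_one]
    rw [h2] at h1
    rw [← h1]
    have := Fintype.ofFinite (X ⊓ stC E.nC θ : Subgroup G)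
    rw [ex_eq]
    exact Submodule.sum_mem _ fun t _ => Submodule.smul_mem _ _ (Submodule.subset_span ⟨t, rfl⟩)
  · intro k ρ hρ hρθ a ha hz
    rw [hval]
    obtain ⟨h1, h2⟩ := E.eps θ hθ
    have h3 : Rd C (mulF (ε θ) a) := by
      refine ⟨sp_mulF h1 ha, fun m ρ' hρ' => ?_⟩
      rw [ex_mulF_left ρ' h1]
      by_cases h : tr ρ' = θ
      · have h4 : ev ρ (fun x : C => a x) = Matrix.scalar (Fin k) 0 := by
          rw [map_zero]; exact hz
        have h5 := ev_eq_of_tr E.good hρ hρ' (hρθ.trans h.symm) _ _ h4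
        have h6 : ex ρ' a = 0 := by rw [ex, h5, map_zero]
        rw [h6, mul_zero]
      · rw [(h2 m ρ' hρ').2 h, zero_mul]
    have h4 := h3.zero E.good E.nC E.le hσ
    rw [ex_mulF_left σ (h1.mono E.le), ← hQP] at h4
    calc P * ex σ a * Q = (P * Q) * P * ex σ a * Q := by rw [hPQ, Matrix.one_mul]
      _ = P * (Q * P * ex σ a) * Q := by simp only [Matrix.mul_assoc]
      _ = 0 := by rw [h4, Matrix.mul_zero, Matrix.zero_mul]

end corner

end Pool.Agent.PP.H67
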